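import Pool.Agent.T2h75.CL.Stm

/-!
Definitions for the disproof of Q1 of MP_7de521_nt.

For a totally real number field `K`, `K ⊗_ℚ ℝ = ∏_{φ : K → ℝ} ℝ`, so the real points
`(K ⊗ ℝ)^×` of the torus `A = R_{K/ℚ} G_m` are the functions `(K →+* ℝ) → ℝˣ`, and
`A(ℚ) = K^×` is embedded by `x ↦ (φ x)_φ`.
-/

set_option autoImplicit false

namespace Pool.Agent.T2h75.CL

/-- `A(ℝ)` for `A = R_{K/ℚ} G_m`, `K` totally real, with the product topology. -/
abbrev RealPts (K : Type) [Field K] : Type := (K →+* ℝ) → ℝˣ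

/-- the embedding `K^× = A(ℚ) → A(ℝ)` -/
def embed (K : Type) [Field K] : Kˣ →* RealPts K :=
  Pi.monoidHom fun φ => Units.map (φ : K →* ℝ)

/-- The subgroup `B` of `A(ℝ) = (K ⊗ ℝ)^×` is the set of real zeros of a family `I` of polynomials
with rational coefficients in the coordinates `x` with respect to a ℚ-basis `b` of `K`
(`z = ∑ x_i b_i` in `K ⊗ ℝ`, that is `z_φ = ∑ x_i φ(b_i)` for all `φ`). For every algebraic subgroup
`B` of `A` defined over ℚ the group `B(ℝ)` has this property. -/
def QClosed (K : Type) [Field K] [NumberField K] (B : Subgroup (RealPts K)) : Prop :=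
  ∃ (n : ℕ) (b : Module.Basis (Fin n) ℚ K) (I : Set (MvPolynomial (Fin n) ℚ)),
    ∀ z : RealPts K, z ∈ B ↔
      ∀ x : Fin n → ℝ, (∀ φ : K →+* ℝ, ((z φ : ℝˣ) : ℝ) = ∑ i, x i * φ (b i)) →
        ∀ P ∈ I, MvPolynomial.aeval x P = 0

/-- The real part of the expected answer for `A = R_{K/ℚ} G_m`, `K` totally real: for every finitely
generated `L ⊆ K^×` the identity component of the closure of `L` in `A(ℝ)` has finite index in
`B(ℝ)` for some algebraic subgroup `B` defined over ℚ (of `B(ℝ)` only `QClosed` is used). -/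
def ExpectedReal (K : Type) [Field K] [NumberField K] : Prop :=
  ∀ L : Subgroup Kˣ, L.FG → ∃ B : Subgroup (RealPts K), QClosed K B ∧
    idComp (L.map (embed K)).topologicalClosure ≤ B ∧
    (idComp (L.map (embed K)).topologicalClosure).relIndex B ≠ 0

end Pool.Agent.T2h75.CL
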