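import Pool.Agent.T2h75.CL.Def

set_option autoImplicit false

namespace Pool.Agent.T2h75.CL

open scoped BigOperators Matrix

/-- the linear map `x ↦ yN ρ (NN Φ φ₄ (Sx x) (rx x))` -/
noncomputable def TT {G : Type} (ρ : G → Matrix (Fin 3) (Fin 3) ℤ) (Φ : Fin 3 → Fin 3 → ℝ)
    (φ₄ : Fin 3 → ℝ) : (Fin 9 → ℝ) →ₗ[ℝ] (G → ℝ) where
  toFun x := yN ρ (NN Φ φ₄ (Sx x) (rx x))
  map_add' x y := by
    ext g
    simp [yN, NN, Sx, rx, Fin.sum_univ_three]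
    ring
  map_smul' c x := by
    ext g
    simp [yN, NN, Sx, rx, Fin.sum_univ_three]
    ring

section
variable {K : Type} [Field K]

/-- the element of `K^×` with exponents `x` -/
def gx (w : Fin 4 → Fin 3 → Kˣ) (x : Fin 9 → ℤ) : Kˣ :=
  (∏ k : Fin 3, ∏ j : Fin 3, (w (Fin.castSucc k) j) ^ (Sx x k j)) * ∏ j : Fin 3, (w 3 j) ^ (rx x j)

/-- `gx` as a homomorphism -/
def gxHom (w : Fin 4 → Fin 3 → Kˣ) : Multiplicative (Fin 9 → ℤ) →* Kˣ where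
  toFun x := gx w (Multiplicative.toAdd x)
  map_one' := by
    simp [gx, Sx, rx, Fin.prod_univ_three]
  map_mul' x y := by
    simp [gx, Sx, rx, Fin.prod_univ_three, zpow_add]
    ac_rfl

/-- `a ↦ log |ι (g a)|` -/
noncomputable def lgh [Algebra ℚ K] (ι : K →+* ℝ) (g : K ≃ₐ[ℚ] K) : Kˣ →* Multiplicative ℝ where
  toFun a := Multiplicative.ofAdd (Real.log |ι (g (a : K))|)
  map_one' := by simp
  map_mul' a b := by
    have h1 : ι (g (a : K)) ≠ 0 := by simp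
    have h2 : ι (g (b : K)) ≠ 0 := by simp
    rw [← ofAdd_add]
    congr 1
    rw [Units.val_mul, map_mul, map_mul, abs_mul, Real.log_mul (abs_ne_zero.2 h1) (abs_ne_zero.2 h2)]

/-- `Φ_k(i) = log |ι (w_k(i))|` -/
noncomputable def PhK (ι : K →+* ℝ) (w : Fin 4 → Fin 3 → Kˣ) (k : Fin 4) (i : Fin 3) : ℝ :=
  Real.log |ι (w k i : K)|

/-- compatibility of `w` with `ρ` -/
def WOK [Algebra ℚ K] (ι : K →+* ℝ) (ρ : (K ≃ₐ[ℚ] K) → Matrix (Fin 3) (Fin 3) ℤ)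
    (w : Fin 4 → Fin 3 → Kˣ) : Prop :=
  ∀ (g : K ≃ₐ[ℚ] K) (k : Fin 4) (j : Fin 3),
    Real.log |ι (g (w k j : K))| = ∑ i, (ρ g i j : ℝ) * PhK ι w k i

theorem lgh_gx [Algebra ℚ K] (ι : K →+* ℝ) (ρ : (K ≃ₐ[ℚ] K) → Matrix (Fin 3) (Fin 3) ℤ)
    (w : Fin 4 → Fin 3 → Kˣ) (hw : WOK ι ρ w) (g : K ≃ₐ[ℚ] K) (x : Fin 9 → ℤ) :
    Real.log |ι (g (gx w x : K))| =
      TT ρ (fun k => PhK ι w (Fin.castSucc k)) (PhK ι w 3) (fun i => (x i : ℝ)) g := by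
  have h : Multiplicative.toAdd (lgh ι g (gx w x)) = Real.log |ι (g (gx w x : K))| := rfl
  rw [← h, gx]
  simp only [map_mul, map_prod, map_zpow, toAdd_mul, toAdd_prod, toAdd_zpow]
  have h2 : ∀ k j, Multiplicative.toAdd (lgh ι g (w k j)) = ∑ i, (ρ g i j : ℝ) * PhK ι w k i :=
    fun k j => hw g k j
  simp only [h2]
  simp [TT, yN, NN, Sx, rx, Fin.sum_univ_three]
  ring

end

theorem E_add {κ : Type*} (v w : κ → ℝ) : E (v + w) = E v * E w := by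
  ext i
  simp [E, Real.exp_add]

theorem E_zero {κ : Type*} : E (0 : κ → ℝ) = 1 := by
  ext i
  simp [E]

theorem E_nsmul {κ : Type*} (n : ℕ) (v : κ → ℝ) : E ((n : ℝ) • v) = E v ^ n := by
  ext i
  simp [E, Real.exp_nat_mul]

theorem lg_E {κ : Type*} (v : κ → ℝ) : lg (E v) = v := by
  ext i
  simp [lg, E]

end Pool.Agent.T2h75.CL
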