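import Pool.Agent.T2h75.CL.Fin1

set_option autoImplicit false

namespace Pool.Agent.T2h75.CL

open scoped BigOperators Matrix

section
variable (K : Type) [Field K] [NumberField K] [IsGalois ℚ K] (ι : K →+* ℝ)

/-- the bijection `g ↦ ι ∘ g` -/
noncomputable def eqv (hEQ : S_EQ) : (K ≃ₐ[ℚ] K) ≃ (K →+* ℝ) :=
  Equiv.ofBijective (fun g => ι.comp (RingHomClass.toRingHom g)) (by
    refine ⟨?_, ?_⟩
    · intro g h hgh
      apply AlgEquiv.ext
      intro x
      apply ι.injective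
      exact RingHom.congr_fun hgh x
    · intro φ
      obtain ⟨g, hg⟩ := hEQ K ι φ
      exact ⟨g, RingHom.ext fun x => (hg x).symm⟩)

theorem eqv_apply (hEQ : S_EQ) (g : K ≃ₐ[ℚ] K) (x : K) : (eqv K ι hEQ g) x = ι (g x) := rfl

theorem eqv_symm_apply (hEQ : S_EQ) (φ : K →+* ℝ) (x : K) :
    ι ((eqv K ι hEQ).symm φ x) = φ x := by
  have h := eqv_apply K ι hEQ ((eqv K ι hEQ).symm φ) x
  rw [Equiv.apply_symm_apply] at h
  exact h.symm

/-- the Lie algebra of a subgroup, as a subspace of `G → ℝ` -/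
noncomputable def Vsub (hEQ : S_EQ) (L0 : Subgroup (RealPts K)) :
    Submodule ℝ ((K ≃ₐ[ℚ] K) → ℝ) where
  carrier := {v | ∀ t : ℝ, E (t • fun φ => v ((eqv K ι hEQ).symm φ)) ∈ L0}
  add_mem' := by
    intro v w hv hw t
    have h := L0.mul_mem (hv t) (hw t)
    rw [← E_add] at h
    convert h using 2
    ext φ
    simp [mul_add]
  zero_mem' := by
    intro t
    have : (t • fun φ : K →+* ℝ => (0 : (K ≃ₐ[ℚ] K) → ℝ) ((eqv K ι hEQ).symm φ)) = 0 := by
      ext φ; simp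
    rw [this, E_zero]
    exact L0.one_mem
  smul_mem' := by
    intro c v hv t
    have h := hv (t * c)
    convert h using 2
    ext φ
    simp [mul_assoc]

theorem key (hT2 : S_T2) (hT3 : S_T3) (hT4 : S_T4) (hP3 : S_P3) (hLA : S_LA) (hLB : S_LB)
    (hEQ : S_EQ) (ρ : (K ≃ₐ[ℚ] K) → Matrix (Fin 3) (Fin 3) ℤ) (hρ : RhoOK (K ≃ₐ[ℚ] K) ρ)
    (w : Fin 4 → Fin 3 → Kˣ) (hw : WOK ι ρ w) (u : Fin 3 → ℝ)
    (hdet : (Matrix.of fun k : Fin 3 => PhK ι w (Fin.castSucc k)).det ≠ 0)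
    (hu : ∀ i, PhK ι w 3 i = ∑ k : Fin 3, u k * PhK ι w (Fin.castSucc k) i)
    (hirr : ∀ (m : ℤ) (n : Fin 3 → ℤ), m ≠ 0 →
      (∀ j, (m : ℝ) * PhK ι w 3 j = ∑ k : Fin 3, (n k : ℝ) * PhK ι w (Fin.castSucc k) j) → False)
    (hexp : ExpectedReal K) :
    ∀ f : ℝ →ₗ[ℚ] ℝ, ∀ a b : Fin 3, f (u a) * u b = f (u b) * u a := by
  classical
  set Φ : Fin 3 → Fin 3 → ℝ := fun k => PhK ι w (Fin.castSucc k) with hΦ
  set φ₄ : Fin 3 → ℝ := PhK ι w 3 with hφ₄
  set T := TT ρ Φ φ₄ with hTdef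
  let L : Subgroup Kˣ := (gxHom w).range
  have hFG : L.FG := by
    have h1 : Group.FG (Multiplicative (Fin 9 → ℤ)) := inferInstance
    have h2 : Group.FG L := Group.fg_of_surjective (gxHom w).rangeRestrict_surjective
    exact (Group.fg_iff_subgroup_fg L).1 h2
  obtain ⟨B, hB, hle, hrel⟩ := hexp L hFG
  set L0 := idComp (L.map (embed K)).topologicalClosure with hL0
  set e := eqv K ι hEQ with he
  obtain ⟨hindep, c, hc0, hc⟩ := hLB _ ρ hρ Φ φ₄ u hdet hu hirr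
  let v : Fin 9 → ((K ≃ₐ[ℚ] K) → ℝ) := fun i => T (fun j => if i = j then 1 else 0)
  have hv : ∀ c : Fin 9 → ℝ, ∑ i, c i • v i = T c := fun c =>
    (LinearMap.pi_apply_eq_sum_univ T c).symm
  have hlg : ∀ m : Fin 9 → ℤ, lg (embed K (gx w m)) =
      fun φ => T (fun i => (m i : ℝ)) (e.symm φ) := by
    intro m
    ext φ
    rw [← lgh_gx ι ρ w hw]
    change Real.log |φ (gx w m : K)| = _
    rw [← eqv_symm_apply K ι hEQ φ]
  have hsmall : ∀ ε : ℝ, 0 < ε → ∃ z ∈ L.map (embed K), lg z ≠ 0 ∧ ∀ φ, |lg z φ| < ε := by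
    intro ε hε
    obtain ⟨m, hm1, hm2⟩ := hT2 ((K ≃ₐ[ℚ] K) → ℝ) 9 v
      (fun m hm => by
        rw [hv] at hm
        exact hindep m hm) ⟨c, hc0, by rw [hv]; exact hc⟩ ε hε
    rw [hv] at hm1 hm2
    refine ⟨embed K (gx w m), ⟨gx w m, ⟨Multiplicative.ofAdd m, rfl⟩, rfl⟩, ?_, ?_⟩
    · intro h0
      apply hm1
      ext g
      have := congrFun h0 (e g)
      rw [hlg] at this
      simpa using this
    · intro φ
      rw [hlg]
      have h1 := norm_le_pi_norm (T fun i => (m i : ℝ)) (e.symm φ)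
      rw [Real.norm_eq_abs] at h1
      exact lt_of_le_of_lt h1 hm2
  obtain ⟨d, hd0, hd⟩ := hT3 (K →+* ℝ) (L.map (embed K)) hsmall
  have hVne : Vsub K ι hEQ L0 ≠ ⊥ := by
    intro hbot
    have hmem : (fun g => d (e g)) ∈ Vsub K ι hEQ L0 := by
      intro t
      have : (t • fun φ => (fun g => d (e g)) ((eqv K ι hEQ).symm φ)) = t • d := by
        ext φ
        simp [he]
      rw [this]
      exact hd t
    rw [hbot, Submodule.mem_bot] at hmem
    apply hd0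
    ext φ
    have := congrFun hmem (e.symm φ)
    simpa using this
  -- elements of V come from U
  have hVU : ∀ y ∈ Vsub K ι hEQ L0, ∃ x : Fin 9 → ℝ, y = T x := by
    intro y hy
    have h1 : E ((1 : ℝ) • fun φ => y (e.symm φ)) ∈ L0 := hy 1
    have h2 : E ((1 : ℝ) • fun φ => y (e.symm φ)) ∈ (L.map (embed K)).topologicalClosure :=
      (Subgroup.map_subtype_le _) h1
    have h3 := hT4 (K →+* ℝ) (L.map (embed K))
      (LinearMap.range ((LinearMap.funLeft ℝ ℝ e.symm) ∘ₗ T)) (by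
        rintro z ⟨a, ⟨m, rfl⟩, rfl⟩
        refine ⟨fun i => ((Multiplicative.toAdd m) i : ℝ), ?_⟩
        exact (hlg (Multiplicative.toAdd m)).symm) _ h2
    rw [lg_E] at h3
    obtain ⟨x, hx⟩ := h3
    refine ⟨x, ?_⟩
    ext g
    have := congrFun hx (e g)
    simpa [LinearMap.funLeft] using this.symm
  -- the zero set in the group coordinates
  let SG : Set ((K ≃ₐ[ℚ] K) → ℝˣ) := {z | (fun φ => z (e.symm φ)) ∈ B}
  have hSG : RatG K ι SG := by
    obtain ⟨n, b, I, hI⟩ := hB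
    refine ⟨n, b, I, fun z => ?_⟩
    change ((fun φ => z (e.symm φ)) ∈ B) ↔ _
    rw [hI]
    refine forall_congr' fun x => ?_
    have : (∀ φ : K →+* ℝ, ((z (e.symm φ) : ℝˣ) : ℝ) = ∑ i, x i * φ (b i)) ↔
        (∀ g : K ≃ₐ[ℚ] K, ((z g : ℝˣ) : ℝ) = ∑ i, x i * ι (g (b i))) := by
      constructor
      · intro h g
        have h1 := h (e g)
        rw [Equiv.symm_apply_apply] at h1
        exact h1
      · intro h φ
        rw [h (e.symm φ)]
        refine Finset.sum_congr rfl fun i _ => ?_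
        rw [eqv_symm_apply K ι hEQ φ]
    rw [this]
  have hpow : ∀ z ∈ B, z ^ (L0.relIndex B) ∈ L0 := by
    intro z hz
    have h1 := Subgroup.pow_index_mem (L0.subgroupOf B) (⟨z, hz⟩ : B)
    rw [Subgroup.mem_subgroupOf] at h1
    exact h1
  have hstab : ∀ x ∈ Vsub K ι hEQ L0, ∀ y : (K ≃ₐ[ℚ] K) → ℝ,
      (∀ m : (K ≃ₐ[ℚ] K) → ℤ, ∑ g, (m g : ℝ) * x g = 0 → ∑ g, (m g : ℝ) * y g = 0) →
      ∀ τ : K ≃ₐ[ℚ] K, (fun g => y (τ * g)) ∈ Vsub K ι hEQ L0 := by
    intro x hx y hy τ t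
    set k := L0.relIndex B with hk
    have hk0 : (k : ℝ) ≠ 0 := by exact_mod_cast hrel
    have h1 := hP3 K ι SG hSG x (by
      intro s
      change (fun φ => E (s • x) (e.symm φ)) ∈ B
      exact hle (hx s)) ((t / k) • y) (by
        intro m hm
        have := hy m hm
        simp only [Pi.smul_apply, smul_eq_mul]
        have h2 : ∑ g, (m g : ℝ) * (t / k * y g) = (t / k) * ∑ g, (m g : ℝ) * y g := by
          rw [Finset.mul_sum]
          refine Finset.sum_congr rfl fun g _ => by ring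
        rw [h2, this, mul_zero]) τ
    have h2 : (fun φ => E (fun g => ((t / k) • y) (τ * g)) (e.symm φ)) ∈ B := h1
    have h3 := hpow _ h2
    convert h3 using 1
    have h4 : (fun φ => E (fun g => ((t / k) • y) (τ * g)) (e.symm φ)) =
        E (fun φ => ((t / k) • y) (τ * (e.symm φ))) := rfl
    rw [h4, ← E_nsmul]
    congr 1
    ext φ
    simp only [Pi.smul_apply, smul_eq_mul]
    field_simp
    rfl
  refine hLA _ ρ hρ Φ φ₄ u hdet hu (Vsub K ι hEQ L0) hVne ?_ ?_ ?_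
  · intro y hy
    obtain ⟨x, hx⟩ := hVU y hy
    refine ⟨Sx x, rx x, ?_, hx⟩
    intro i j
    fin_cases i <;> fin_cases j <;> rfl
  · intro y hy τ
    exact hstab y hy y (fun m hm => hm) τ
  · intro x hx y hy
    have := hstab x hx y hy 1
    simpa using this

end

end Pool.Agent.T2h75.CL
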