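import Pool.Agent.T2h75.CL.Fin2

set_option autoImplicit false

namespace Pool.Agent.T2h75.CL

open scoped BigOperators Matrix

theorem exists_int_of_rat (u : Fin 3 → ℝ) (h : ∀ k, ∃ q : ℚ, (q : ℝ) = u k) :
    ∃ m : ℤ, m ≠ 0 ∧ ∀ k, ∃ n : ℤ, (n : ℝ) = m * u k := by
  choose q hq using h
  refine ⟨∏ k, ((q k).den : ℤ), ?_, ?_⟩
  · rw [Finset.prod_ne_zero_iff]
    intro k _
    exact_mod_cast (q k).den_nz
  · intro k
    refine ⟨(q k).num * ∏ j ∈ Finset.univ.erase k, ((q j).den : ℤ), ?_⟩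
    rw [← hq k, ← Finset.mul_prod_erase Finset.univ _ (Finset.mem_univ k)]
    push_cast
    have h1 : ((q k : ℚ) : ℝ) = ((q k).num : ℝ) / ((q k).den : ℝ) := by
      exact_mod_cast congrArg (fun x : ℚ => (x : ℝ)) (Rat.num_div_den (q k)).symm
    have h2 : ((q k).den : ℝ) ≠ 0 := by exact_mod_cast (q k).den_nz
    rw [h1]
    field_simp

section
variable (K : Type) [Field K] [NumberField K] [IsGalois ℚ K] (ι : K →+* ℝ)

/-- replace `w_3` by `w_3 w_b` -/
def wq {K : Type} [Field K] (w : Fin 4 → Fin 3 → Kˣ) (b : Fin 3) : Fin 4 → Fin 3 → Kˣ :=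
  fun k j => if k = 3 then w 3 j * w (Fin.castSucc b) j else w k j

omit [NumberField K] [IsGalois ℚ K] in
theorem PhK_wq_three (w : Fin 4 → Fin 3 → Kˣ) (b j : Fin 3) :
    PhK ι (wq w b) 3 j = PhK ι w 3 j + PhK ι w (Fin.castSucc b) j := by
  have h1 : ι (w 3 j : K) ≠ 0 := by simp
  have h2 : ι (w (Fin.castSucc b) j : K) ≠ 0 := by simp
  simp only [PhK, wq, if_true, Units.val_mul, map_mul, abs_mul]
  rw [Real.log_mul (abs_ne_zero.2 h1) (abs_ne_zero.2 h2)]

omit [NumberField K] [IsGalois ℚ K] in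
theorem PhK_wq_cs (w : Fin 4 → Fin 3 → Kˣ) (b k j : Fin 3) :
    PhK ι (wq w b) (Fin.castSucc k) j = PhK ι w (Fin.castSucc k) j := by
  have : (Fin.castSucc k : Fin 4) ≠ 3 := by
    intro h
    have := congrArg Fin.val h
    simp at this
    omega
  simp only [PhK, wq, this, if_false]

omit [IsGalois ℚ K] in
theorem WOK_wq (ρ : (K ≃ₐ[ℚ] K) → Matrix (Fin 3) (Fin 3) ℤ) (w : Fin 4 → Fin 3 → Kˣ)
    (hw : WOK ι ρ w) (b : Fin 3) : WOK ι ρ (wq w b) := by
  intro g k j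
  by_cases hk : k = 3
  · subst hk
    have h1 : ι (g (w 3 j : K)) ≠ 0 := by simp
    have h2 : ι (g (w (Fin.castSucc b) j : K)) ≠ 0 := by simp
    simp only [PhK_wq_three]
    simp only [wq, if_true, Units.val_mul, map_mul, abs_mul]
    rw [Real.log_mul (abs_ne_zero.2 h1) (abs_ne_zero.2 h2), hw g 3 j, hw g (Fin.castSucc b) j,
      ← Finset.sum_add_distrib]
    refine Finset.sum_congr rfl fun i _ => by ring
  · have h := hw g k j
    simp only [PhK, wq, hk, if_false] at h ⊢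
    exact h

theorem contra (hT2 : S_T2) (hT3 : S_T3) (hT4 : S_T4) (hP3 : S_P3) (hLA : S_LA) (hLB : S_LB)
    (hEQ : S_EQ) (ρ : (K ≃ₐ[ℚ] K) → Matrix (Fin 3) (Fin 3) ℤ) (hρ : RhoOK (K ≃ₐ[ℚ] K) ρ)
    (w : Fin 4 → Fin 3 → Kˣ) (hw : WOK ι ρ w)
    (hdet : (Matrix.of fun k : Fin 3 => PhK ι w (Fin.castSucc k)).det ≠ 0)
    (hirr : ∀ (m : ℤ) (n : Fin 3 → ℤ), m ≠ 0 →
      (∀ j, (m : ℝ) * PhK ι w 3 j = ∑ k : Fin 3, (n k : ℝ) * PhK ι w (Fin.castSucc k) j) → False) :
    ¬ ExpectedReal K := by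
  intro hexp
  -- the vector u
  obtain ⟨u, hu⟩ : ∃ u : Fin 3 → ℝ, ∀ i, PhK ι w 3 i =
      ∑ k : Fin 3, u k * PhK ι w (Fin.castSucc k) i := by
    set A : Matrix (Fin 3) (Fin 3) ℝ := (Matrix.of fun k : Fin 3 => PhK ι w (Fin.castSucc k))ᵀ with hA
    have hAdet : IsUnit A.det := by
      rw [hA, Matrix.det_transpose]
      exact isUnit_iff_ne_zero.2 hdet
    refine ⟨A⁻¹ *ᵥ (PhK ι w 3), fun i => ?_⟩
    have h1 : A *ᵥ (A⁻¹ *ᵥ (PhK ι w 3)) = PhK ι w 3 := by
      rw [Matrix.mulVec_mulVec, Matrix.mul_nonsing_inv A hAdet, Matrix.one_mulVec]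
    have h2 := congrFun h1 i
    rw [← h2]
    simp only [Matrix.mulVec, dotProduct]
    refine Finset.sum_congr rfl fun k _ => ?_
    rw [mul_comm]
    rfl
  -- an irrational coordinate
  obtain ⟨a, ha⟩ : ∃ a, ∀ q : ℚ, (q : ℝ) ≠ u a := by
    by_contra hcon
    push_neg at hcon
    obtain ⟨m, hm, hn⟩ := exists_int_of_rat u hcon
    choose n hn using hn
    refine hirr m n hm fun j => ?_
    rw [hu j, Finset.mul_sum]
    refine Finset.sum_congr rfl fun k _ => ?_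
    rw [hn k]
    ring
  obtain ⟨b, hab⟩ : ∃ b : Fin 3, b ≠ a := ⟨a + 1, by fin_cases a <;> decide⟩
  -- the functional
  obtain ⟨f0, hf0, hf1⟩ := Submodule.exists_le_ker_of_notMem (K := ℚ) (V := ℝ)
    (p := Submodule.span ℚ {(1 : ℝ)}) (v := u a) (by
      intro hmem
      obtain ⟨q, hq⟩ := Submodule.mem_span_singleton.1 hmem
      apply ha q
      rw [← hq, Rat.smul_def, mul_one])
  let f : ℝ →ₗ[ℚ] ℝ := (Algebra.linearMap ℚ ℝ).comp f0
  have hfa : f (u a) ≠ 0 := by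
    simp only [f, LinearMap.comp_apply, Algebra.linearMap_apply]
    intro h
    apply hf0
    simpa using h
  have hf1' : f 1 = 0 := by
    have h1 : f0 1 = 0 := hf1 (Submodule.mem_span_singleton_self 1)
    simp [f, LinearMap.comp_apply, h1]
  have k1 := key K ι hT2 hT3 hT4 hP3 hLA hLB hEQ ρ hρ w hw u hdet hu hirr hexp f a b
  let u' : Fin 3 → ℝ := fun k => u k + if k = b then 1 else 0
  have hu' : ∀ i, PhK ι (wq w b) 3 i =
      ∑ k : Fin 3, u' k * PhK ι (wq w b) (Fin.castSucc k) i := by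
    intro i
    rw [PhK_wq_three, hu i]
    simp only [PhK_wq_cs, u', add_mul, Finset.sum_add_distrib, ite_mul, one_mul, zero_mul,
      Finset.sum_ite_eq', Finset.mem_univ, if_true]
  have hdet' : (Matrix.of fun k : Fin 3 => PhK ι (wq w b) (Fin.castSucc k)).det ≠ 0 := by
    have : (fun k : Fin 3 => PhK ι (wq w b) (Fin.castSucc k)) =
        (fun k : Fin 3 => PhK ι w (Fin.castSucc k)) := by
      ext k j
      exact PhK_wq_cs K ι w b k j
    rw [this]
    exact hdet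
  have hirr' : ∀ (m : ℤ) (n : Fin 3 → ℤ), m ≠ 0 →
      (∀ j, (m : ℝ) * PhK ι (wq w b) 3 j =
        ∑ k : Fin 3, (n k : ℝ) * PhK ι (wq w b) (Fin.castSucc k) j) → False := by
    intro m n hm h
    refine hirr m (fun k => n k - if k = b then m else 0) hm fun j => ?_
    have h1 := h j
    rw [PhK_wq_three] at h1
    simp only [PhK_wq_cs] at h1
    push_cast
    simp only [sub_mul, Finset.sum_sub_distrib, ite_mul, zero_mul,
      Finset.sum_ite_eq', Finset.mem_univ, if_true]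
    linarith
  have k2 := key K ι hT2 hT3 hT4 hP3 hLA hLB hEQ ρ hρ (wq w b) (WOK_wq K ι ρ w hw b) u' hdet' hu'
    hirr' hexp f a b
  have hua : u' a = u a := by simp [u', hab.symm]
  have hub : u' b = u b + 1 := by simp [u']
  rw [hua, hub, map_add, hf1', add_zero] at k2
  apply hfa
  linarith

end

end Pool.Agent.T2h75.CL
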