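import Pool.Agent.T2h75.CL.Fin3

set_option autoImplicit false

namespace Pool.Agent.T2h75.CL

open scoped BigOperators Matrix

/-- the real embedding of `KK e` -/
noncomputable def iot (e : Fin 3 → ℝ) : KK e →+* ℝ := algebraMap (KK e) ℝ

theorem iot_ee (e : Fin 3 → ℝ) (i : Fin 3) : iot e (ee e i) = e i := rfl

theorem sub_ne (e : Fin 3 → ℝ) (he : EData e) (k : Fin 4) (j : Fin 3) :
    (mm k : ℝ) - e j ≠ 0 := by
  have h0 := he.lo0; have h0' := he.hi0
  have h1 := he.lo1; have h1' := he.hi1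
  have h2 := he.lo2; have h2' := he.hi2
  fin_cases k <;> fin_cases j <;> simp [mm] <;> intro h <;> linarith

theorem add_ne (e : Fin 3 → ℝ) (he : EData e) (k : Fin 4) (j : Fin 3) :
    (mm k : ℝ) + e j ≠ 0 := by
  have h0 := he.lo0; have h0' := he.hi0
  have h1 := he.lo1; have h1' := he.hi1
  have h2 := he.lo2; have h2' := he.hi2
  fin_cases k <;> fin_cases j <;> simp [mm] <;> intro h <;> linarith

theorem iot_mm (e : Fin 3 → ℝ) (q : ℚ) : iot e (q : KK e) = (q : ℝ) := by
  simp

/-- `w_k(j) = (m_k + e_j)/(m_k - e_j)` -/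
noncomputable def ww (e : Fin 3 → ℝ) (he : EData e) (k : Fin 4) (j : Fin 3) : (KK e)ˣ :=
  Units.mk0 (((mm k : KK e) + ee e j) / ((mm k : KK e) - ee e j)) (by
    refine div_ne_zero ?_ ?_
    · intro h
      have := congrArg (iot e) h
      rw [map_add, iot_mm, iot_ee, map_zero] at this
      exact add_ne e he k j this
    · intro h
      have := congrArg (iot e) h
      rw [map_sub, iot_mm, iot_ee, map_zero] at this
      exact sub_ne e he k j this)

theorem PhK_ww (e : Fin 3 → ℝ) (he : EData e) (k : Fin 4) (j : Fin 3) :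
    PhK (iot e) (ww e he) k j = PhR e k j := by
  simp only [PhK, PhR, ww, Units.val_mk0]
  rw [map_div₀, map_add, map_sub, iot_mm, iot_ee]

theorem final (hT1 : S_T1) (hT2 : S_T2) (hT3 : S_T1 → S_T3) (hT4 : S_T4) (hP3 : S_P3)
    (hLA : S_LA) (hLB : S_LB)
    (hEQ : S_EQ) (hNT0 : S_NT0) (hNT1 : S_NT1) (hNT2 : S_NT2) (hNT3 : S_NT3) (hNT4 : S_NT4)
    (hNT5 : S_NT5) (hNT6 : S_NT6) (hNT7 : S_NT7) (hNT8 : S_NT8) :
    ∃ (K : Type) (_ : Field K) (_ : NumberField K), IsGalois ℚ K ∧
      NumberField.IsTotallyReal K ∧ ¬ ExpectedReal K := by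
  obtain ⟨e, he⟩ := hNT0
  obtain ⟨hfd, hgal⟩ := hNT1 e he
  haveI : NumberField (KK e) := { to_charZero := inferInstance, to_finiteDimensional := hfd }
  refine ⟨KK e, inferInstance, inferInstance, hgal, hNT2 (KK e) (iot e), ?_⟩
  have h3 := hNT3 e he hfd hgal
  have h4 := hNT4 e he
  have h5 := hNT5 e he hfd hgal h3 h4
  obtain ⟨ρ, hρ, hval, hone, hneg, huniq⟩ := hNT6 e he h3 h4 h5
  have hdet : (Matrix.of fun k : Fin 3 => PhK (iot e) (ww e he) (Fin.castSucc k)).det ≠ 0 := by
    have : (fun k : Fin 3 => PhK (iot e) (ww e he) (Fin.castSucc k)) =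
        (fun k j : Fin 3 => PhR e (Fin.castSucc k) j) := by
      ext k j
      exact PhK_ww e he _ j
    rw [this]
    exact hNT7 e he
  refine contra (KK e) (iot e) hT2 (hT3 hT1) hT4 hP3 hLA hLB hEQ ρ hρ (ww e he) ?_ hdet ?_
  · intro g k j
    obtain ⟨i, hi, hother⟩ := huniq g j
    have hsum : ∑ i', (ρ g i' j : ℝ) * PhK (iot e) (ww e he) k i' =
        (ρ g i j : ℝ) * PhK (iot e) (ww e he) k i := by
      refine Finset.sum_eq_single i ?_ ?_
      · intro i' _ hi'
        rw [hother i' hi']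
        simp
      · intro h
        exact absurd (Finset.mem_univ i) h
    rw [hsum]
    have hgm : g ((mm k : ℚ) : KK e) = ((mm k : ℚ) : KK e) := map_ratCast g (mm k)
    rcases hval g i j with h | h | h
    · have h1 := hone g i j h
      rw [h]
      simp only [ww, Units.val_mk0, PhK]
      rw [map_div₀ g, map_add g, map_sub g, hgm, h1]
      simp
    · have h1 := hneg g i j h
      rw [h]
      simp only [ww, Units.val_mk0, PhK]
      rw [map_div₀ g, map_add g, map_sub g, hgm, h1, map_div₀, map_div₀, abs_div, abs_div,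
        sub_neg_eq_add, ← sub_eq_add_neg]
      have ha : |iot e ((mm k : KK e) + ee e i)| ≠ 0 := by
        rw [map_add, iot_mm, iot_ee]
        exact abs_ne_zero.2 (add_ne e he k i)
      have hb : |iot e ((mm k : KK e) - ee e i)| ≠ 0 := by
        rw [map_sub, iot_mm, iot_ee]
        exact abs_ne_zero.2 (sub_ne e he k i)
      rw [Real.log_div hb ha, Real.log_div ha hb]
      push_cast
      ring
    · exact absurd h hi
  · intro m n hm h
    refine hNT8 e he m n hm fun j => ?_
    have := h j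
    simp only [PhK_ww] at this
    exact this

end Pool.Agent.T2h75.CL
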