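import Mathlib

/-!
Project CL (helper75): a DISPROOF of Q1 of MP_7de521_nt (hard): for a totally real `A_4`-field `K`
of degree 12 there is a subgroup `L` of `K^×` of rank 9 such that the identity component of the
closure of `L` in `(K ⊗ ℝ)^× = ∏_{φ : K → ℝ} ℝ^×` is not of finite index in the real points of
any algebraic subgroup (defined over ℚ) of `R_{K/ℚ} G_m`.

`e 0, e 1, e 2` = positive square roots of the roots of `Y^3 - 17 Y^2 + 42 Y - 25`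
(a cyclic cubic, `a ↦ 2 - 1/(a-1)` permutes the roots), `K = ℚ(e 0, e 1, e 2)`.
-/

set_option autoImplicit false

namespace Pool.Agent.T2h75.CL

open scoped BigOperators Matrix

/-! ### topology -/

/-- coordinatewise exponential -/
noncomputable def E {κ : Type*} (v : κ → ℝ) : κ → ℝˣ :=
  fun i => Units.mk0 (Real.exp (v i)) (Real.exp_ne_zero _)

/-- coordinatewise `log |z|` -/
noncomputable def lg {κ : Type*} (z : κ → ℝˣ) : κ → ℝ := fun i => Real.log |((z i : ℝˣ) : ℝ)|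

/-- the identity component of a subgroup `H` of a topological group, as a subgroup of `G` -/
def idComp {G : Type*} [TopologicalSpace G] [Group G] [IsTopologicalGroup G] (H : Subgroup G) :
    Subgroup G :=
  (Subgroup.connectedComponentOfOne H).map H.subtype

/-- T1. A closed non-discrete subgroup of a finite-dimensional space contains a line.
Proof: take `x k ∈ Γ`, `0 < ‖x k‖ < 1/(k+1)`; the unit vectors `x k / ‖x k‖` have a convergent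
subsequence with limit `d`, `‖d‖ = 1` (compact sphere). For real `t` put `m k = ⌊t/‖x k‖⌋`; then
`m k • x k ∈ Γ` and `m k • x k = (m k * ‖x k‖) • (x k/‖x k‖) → t • d`. -/
def S_T1 : Prop := ∀ (V : Type) [NormedAddCommGroup V] [NormedSpace ℝ V] [FiniteDimensional ℝ V]
  (Γ : AddSubgroup V), IsClosed (Γ : Set V) → (∀ ε : ℝ, 0 < ε → ∃ x ∈ Γ, x ≠ 0 ∧ ‖x‖ < ε) →
  ∃ d : V, d ≠ 0 ∧ ∀ t : ℝ, t • d ∈ Γ

/-- T2. `n` real vectors that are linearly independent over ℤ but not over ℝ have arbitrarily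
small non-zero integral combinations. Proof: otherwise `span ℤ (range v)` is discrete and
`Real.finrank_eq_int_finrank_of_discrete` gives the contradiction. -/
def S_T2 : Prop := ∀ (V : Type) [NormedAddCommGroup V] [NormedSpace ℝ V] [FiniteDimensional ℝ V]
  (n : ℕ) (v : Fin n → V), (∀ m : Fin n → ℤ, ∑ i, (m i : ℝ) • v i = 0 → m = 0) →
  (∃ c : Fin n → ℝ, c ≠ 0 ∧ ∑ i, c i • v i = 0) →
  ∀ ε : ℝ, 0 < ε → ∃ m : Fin n → ℤ, ∑ i, (m i : ℝ) • v i ≠ 0 ∧ ‖∑ i, (m i : ℝ) • v i‖ < ε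

/-- T3 (uses T1 as a hypothesis). Put `Γ = {v | E v ∈ L.topologicalClosure}`, a closed additive
subgroup of `κ → ℝ`; for `z ∈ L`, `z^2 = E (2 • lg z)`, so `Γ` has arbitrarily small non-zero
elements; by T1 it contains a line, and `t ↦ E (t • d)` is a path through 1. -/
def S_T3 : Prop := ∀ (κ : Type) [Finite κ] (L : Subgroup (κ → ℝˣ)),
  (∀ ε : ℝ, 0 < ε → ∃ z ∈ L, lg z ≠ 0 ∧ ∀ i, |lg z i| < ε) →
  ∃ d : κ → ℝ, d ≠ 0 ∧ ∀ t : ℝ, E (t • d) ∈ idComp L.topologicalClosure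

/-- T4. `lg` is continuous and `U` is closed. -/
def S_T4 : Prop := ∀ (κ : Type) [Finite κ] (L : Subgroup (κ → ℝˣ)) (U : Submodule ℝ (κ → ℝ)),
  (∀ z ∈ L, lg z ∈ U) → ∀ z ∈ L.topologicalClosure, lg z ∈ U

/-! ### zero sets of rational polynomials -/

/-- P1. Exponential sums (linear independence of `t ↦ exp (t a)` for distinct `a`, e.g. from
`linearIndependent_monoidHom`): if `∑ c_i exp(t a_i) = 0` for all `t`, then for each real `r` the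
sum of the `c_i` with `a_i = r` vanishes. -/
def S_P1 : Prop := ∀ (β : Type) (s : Finset β) (c a : β → ℝ),
  (∀ t : ℝ, ∑ i ∈ s, c i * Real.exp (t * a i) = 0) →
  ∀ r : ℝ, ∑ i ∈ s with a i = r, c i = 0

/-- P2. Dual basis for the trace form of a Galois extension: both orthogonality relations.
(`Algebra.trace_eq_sum_automorphisms`, `Algebra.traceForm_nondegenerate`, `LinearMap.BilinForm.dualBasis`,
then square matrices.) -/
def S_P2 : Prop := ∀ (K : Type) [Field K] [NumberField K] [IsGalois ℚ K] (n : ℕ)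
  (b : Module.Basis (Fin n) ℚ K), ∃ b' : Fin n → K,
  (∀ i j, ∑ g : K ≃ₐ[ℚ] K, g (b' i) * g (b j) = if i = j then 1 else 0) ∧
  (∀ g : K ≃ₐ[ℚ] K, ∑ i, g (b i) * g (b' i) = 1) ∧
  (∀ g h : K ≃ₐ[ℚ] K, g ≠ h → ∑ i, g (b i) * h (b' i) = 0)

/-- A subset of `(K ⊗ ℝ)^×` (coordinates indexed by the Galois group via a real embedding `ι`)
that is cut out by polynomials with rational coefficients in the coordinates with respect to a
ℚ-basis of `K`. -/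
def RatG (K : Type) [Field K] [NumberField K] (ι : K →+* ℝ) (S : Set ((K ≃ₐ[ℚ] K) → ℝˣ)) : Prop :=
  ∃ (n : ℕ) (b : Module.Basis (Fin n) ℚ K) (I : Set (MvPolynomial (Fin n) ℚ)),
    ∀ z, z ∈ S ↔ ∀ x : Fin n → ℝ, (∀ g : K ≃ₐ[ℚ] K, ((z g : ℝˣ) : ℝ) = ∑ i, x i * ι (g (b i))) →
      ∀ P ∈ I, MvPolynomial.aeval x P = 0

/-- P3 (uses P1, P2 as hypotheses): if the line `E (t • d)` lies in the rational zero set `S`, then
so does `E` of every Galois translate of every `y` in the rational hull of `d`.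
Proof: for `P ∈ I` let `F = aeval (fun i => ∑ g, C (g (b' i)) * X g) P : MvPolynomial G K`. Then
`∑_{α ∈ supp F} ι(c_α) exp (t ∑ α_g d_g) = 0` for all `t` (use the second relation of P2 to see that
`x i = ∑ g, ι (g (b' i)) * z g` are the coordinates of `z`), so by P1 (and injectivity of `ι`)
`∑_{α·d = r} c_α = 0`, hence `∑_{α·d = r} τ' c_α = 0` for each automorphism `τ'`; since `α·d = α'·d`
implies `α·y = α'·y`, `∑ ι(τ' c_α) exp (α·y) = 0`. Now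
`∑ ι(τ' c_α) exp (α·y) = aeval (fun i => ∑ g, ι (τ' (g (b' i))) * exp (y g)) P
 = aeval (fun i => ∑ g, ι (g (b' i)) * exp (y (τ'⁻¹ * g))) P`; take `τ' = τ⁻¹`. By the first
relation of P2 any coordinates `x` of `E (fun g => y (τ * g))` are
`x i = ∑ g, ι (g (b' i)) * exp (y (τ * g))`. -/
def S_P3 : Prop := ∀ (K : Type) [Field K] [NumberField K] [IsGalois ℚ K] (ι : K →+* ℝ)
  (S : Set ((K ≃ₐ[ℚ] K) → ℝˣ)), RatG K ι S → ∀ d : (K ≃ₐ[ℚ] K) → ℝ,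
  (∀ t : ℝ, E (t • d) ∈ S) → ∀ y : (K ≃ₐ[ℚ] K) → ℝ,
  (∀ m : (K ≃ₐ[ℚ] K) → ℤ, ∑ g, (m g : ℝ) * d g = 0 → ∑ g, (m g : ℝ) * y g = 0) →
  ∀ τ : K ≃ₐ[ℚ] K, E (fun g => y (τ * g)) ∈ S

/-! ### linear algebra -/

/-- the function on `G` attached to a real 3×3 matrix `N` -/
def yN {G : Type*} (ρ : G → Matrix (Fin 3) (Fin 3) ℤ) (N : Matrix (Fin 3) (Fin 3) ℝ) : G → ℝ :=
  fun g => ∑ i, ∑ j, N i j * (ρ g i j : ℝ)

/-- `N = Φᵀ S + φ₄ rᵀ` -/
def NN (Φ : Fin 3 → Fin 3 → ℝ) (φ₄ : Fin 3 → ℝ) (S : Fin 3 → Fin 3 → ℝ) (r : Fin 3 → ℝ) :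
    Matrix (Fin 3) (Fin 3) ℝ := Matrix.of fun i j => ∑ k, Φ k i * S k j + φ₄ i * r j

/-- hypotheses on the signed permutation representation -/
structure RhoOK (G : Type) [Group G] (ρ : G → Matrix (Fin 3) (Fin 3) ℤ) : Prop where
  mul : ∀ g h, ρ (g * h) = ρ g * ρ h
  one : ρ 1 = 1
  diag : ∀ i : Fin 3, ∃ δ : G, ∀ a b, ρ δ a b = if a = b then (if a = i then 1 else -1) else 0
  perm : ∀ i l : Fin 3, ∃ c : G, ∃ ε : ℤ, (ε = 1 ∨ ε = -1) ∧ ∀ m, ρ c i m = if m = l then ε else 0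

/-- LA. Let `φ₄ = ∑ u_k Φ_k` with `Φ` invertible, `V ≠ 0` a real subspace of `G → ℝ` all of whose
elements are `yN ρ (NN Φ φ₄ S r)` with `S` symmetric, stable under left translations and under
rational hulls. Then for every ℚ-linear `f : ℝ → ℝ` the vectors `f u` and `u` are parallel.
Proof. `yN ρ N (τ * g) = yN ρ ((ρ τ)ᵀ N) g`. Take `v = yN ρ N ∈ V`, `N ≠ 0`, row `i` of `N` being
`t ≠ 0`. With `δ` for `i`: `yN N + (translate by δ) = yN (2 E_ii N)`, so `yN (e_i tᵀ) ∈ V`; with `perm`: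
`yN (e_l tᵀ) ∈ V` for all `l`. `yN ρ` is injective (translate, project, evaluate at `c`). So
`e_l tᵀ = NN Φ φ₄ S_l r_l`; as `Φ` is invertible, for all `x ∈ ℝ³` there are `S` symmetric and `r`
with `x tᵀ = S + u rᵀ`; the antisymmetric part gives `x × t = u × r`, so `u · (x × t) = 0` for all
`x`, i.e. `t × u = 0`; `u ≠ 0` (as `yN` of it...) — if `u = 0` then `t × u = 0` gives nothing, but
then `x tᵀ` is symmetric for all `x`, impossible for `t ≠ 0`. So `t = κ u`, `κ ≠ 0`. For `f` ℚ-linear,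
`t' = f(t_j)` (apply `f' = f ∘ (κ⁻¹ • ·)`, or directly `t' j = f (κ⁻¹ * t j) = f (u j)`) is in the hull:
`yN (e_1 t'ᵀ)` is in the rational hull of `yN (e_1 tᵀ)` because `∑ m_g yN(e_1 tᵀ)(g) = ∑_j ρ_j t_j` with
integers `ρ_j`. So `yN (e_1 t'ᵀ) ∈ V` and by the same argument `t' × u = 0`. -/
def S_LA : Prop := ∀ (G : Type) [Group G] [Fintype G] (ρ : G → Matrix (Fin 3) (Fin 3) ℤ),
  RhoOK G ρ → ∀ (Φ : Fin 3 → Fin 3 → ℝ) (φ₄ : Fin 3 → ℝ) (u : Fin 3 → ℝ),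
  (Matrix.of Φ).det ≠ 0 → (∀ i, φ₄ i = ∑ k, u k * Φ k i) →
  ∀ V : Submodule ℝ (G → ℝ), V ≠ ⊥ →
  (∀ v ∈ V, ∃ (S : Fin 3 → Fin 3 → ℝ) (r : Fin 3 → ℝ), (∀ i j, S i j = S j i) ∧
    v = yN ρ (NN Φ φ₄ S r)) →
  (∀ v ∈ V, ∀ τ : G, (fun g => v (τ * g)) ∈ V) →
  (∀ v ∈ V, ∀ y : G → ℝ,
    (∀ m : G → ℤ, ∑ g, (m g : ℝ) * v g = 0 → ∑ g, (m g : ℝ) * y g = 0) → y ∈ V) →
  ∀ f : ℝ →ₗ[ℚ] ℝ, ∀ a b : Fin 3, f (u a) * u b = f (u b) * u a

/-- symmetric 3×3 matrix from the first six coordinates -/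
def Sx {R : Type*} (x : Fin 9 → R) : Fin 3 → Fin 3 → R :=
  ![![x 0, x 1, x 2], ![x 1, x 3, x 4], ![x 2, x 4, x 5]]

/-- vector from the last three coordinates -/
def rx {R : Type*} (x : Fin 9 → R) : Fin 3 → R := ![x 6, x 7, x 8]

/-- LB. The nine vectors are independent over ℤ but not over ℝ.
(i) `yN ρ` is injective (see LA), so `Φᵀ S + φ₄ rᵀ = 0`. If `r b ≠ 0`, column `b` gives
`r_b φ₄ = - ∑_k S_kb Φ_k`, excluded. If `r = 0` then `Φᵀ S = 0`, `S = 0`.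
(ii) `c = (-u_i u_j, u_j)`: `Φᵀ(-u uᵀ) + φ₄ uᵀ = 0`; `u ≠ 0` because otherwise `φ₄ = 0`. -/
def S_LB : Prop := ∀ (G : Type) [Group G] [Fintype G] (ρ : G → Matrix (Fin 3) (Fin 3) ℤ),
  RhoOK G ρ → ∀ (Φ : Fin 3 → Fin 3 → ℝ) (φ₄ : Fin 3 → ℝ) (u : Fin 3 → ℝ),
  (Matrix.of Φ).det ≠ 0 → (∀ i, φ₄ i = ∑ k, u k * Φ k i) →
  (∀ (m : ℤ) (n : Fin 3 → ℤ), m ≠ 0 → (∀ j, (m : ℝ) * φ₄ j = ∑ k, (n k : ℝ) * Φ k j) → False) →
  (∀ x : Fin 9 → ℤ, yN ρ (NN Φ φ₄ (Sx fun i => (x i : ℝ)) (rx fun i => (x i : ℝ))) = 0 → x = 0) ∧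
  (∃ c : Fin 9 → ℝ, c ≠ 0 ∧ yN ρ (NN Φ φ₄ (Sx c) (rx c)) = 0)

/-! ### number theory -/

/-- EQ. All real embeddings of a Galois number field are `ι ∘ g` (`Normal.algHomEquivAut`, with
`ι.toAlgebra`). -/
def S_EQ : Prop := ∀ (K : Type) [Field K] [NumberField K] [IsGalois ℚ K] (ι φ : K →+* ℝ),
  ∃ g : K ≃ₐ[ℚ] K, ∀ x, φ x = ι (g x)

/-- the three real numbers `e 0 > e 1 > e 2 > 0` with `e_i^2` the roots of `Y^3-17Y^2+42Y-25` -/
structure EData (e : Fin 3 → ℝ) : Prop where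
  lo0 : (376/100 : ℝ) < e 0
  hi0 : e 0 < 377/100
  lo1 : (1386/1000 : ℝ) < e 1
  hi1 : e 1 < 1388/1000
  lo2 : (957/1000 : ℝ) < e 2
  hi2 : e 2 < 959/1000
  prod : e 0 * e 1 * e 2 = 5
  root : ∀ i, (e i)^6 - 17 * (e i)^4 + 42 * (e i)^2 - 25 = 0
  s1 : (e 0)^2 + (e 1)^2 + (e 2)^2 = 17
  s2 : (e 0)^2 * (e 1)^2 + (e 0)^2 * (e 2)^2 + (e 1)^2 * (e 2)^2 = 42
  cyc0 : (e 1)^2 * ((e 0)^2 - 1) = 2 * (e 0)^2 - 3
  cyc1 : (e 2)^2 * ((e 1)^2 - 1) = 2 * (e 1)^2 - 3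
  cyc2 : (e 0)^2 * ((e 2)^2 - 1) = 2 * (e 2)^2 - 3

/-- NT0. IVT for `a^3-17a^2+42a-25` on `(3.76^2, 3.77^2)`; `b = 2 - 1/(a-1)`, `c = (a-3)/(a-2)`;
`e = √a, √b, √c`. -/
def S_NT0 : Prop := ∃ e : Fin 3 → ℝ, EData e

/-- the field -/
noncomputable abbrev KK (e : Fin 3 → ℝ) : IntermediateField ℚ ℝ := IntermediateField.adjoin ℚ (Set.range e)

/-- the element `e i` of `KK e` -/
noncomputable def ee (e : Fin 3 → ℝ) (i : Fin 3) : KK e :=
  ⟨e i, IntermediateField.subset_adjoin ℚ _ ⟨i, rfl⟩⟩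

/-- NT1. `KK e` is the splitting field of `X^6-17X^4+42X^2-25`. -/
def S_NT1 : Prop := ∀ e : Fin 3 → ℝ, EData e → FiniteDimensional ℚ (KK e) ∧ IsGalois ℚ (KK e)

/-- NT2 (totally real). A Galois number field with a real embedding is totally real. -/
def S_NT2 : Prop := ∀ (K : Type) [Field K] [NumberField K] [IsGalois ℚ K] (_ : K →+* ℝ),
  NumberField.IsTotallyReal K

/-- NT3 (transitivity). `Y^3-17Y^2+42Y-25` is irreducible over ℚ (no rational root), so `ee 0 ^2`,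
`ee 1 ^2`, `ee 2 ^ 2` have the same minimal polynomial and are conjugate under the Galois group
(`Normal.minpoly_eq_iff_mem_orbit`); so some `c` maps `ee 0` to `± ee 1`. By the `cyc` relations
`c` then maps `ee 1` to `± ee 2` and `ee 2` to `± ee 0`. -/
def S_NT3 : Prop := ∀ e : Fin 3 → ℝ, EData e → FiniteDimensional ℚ (KK e) → IsGalois ℚ (KK e) →
  ∃ c : KK e ≃ₐ[ℚ] KK e, ∀ i : Fin 3, c (ee e i) = ee e (i + 1) ∨ c (ee e i) = - ee e (i + 1)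

/-- NT4. Every automorphism permutes the `± ee i` cyclically:
`g (ee i) ^ 2` is a root of the cubic. -/
def S_NT4 : Prop := ∀ e : Fin 3 → ℝ, EData e → ∀ g : KK e ≃ₐ[ℚ] KK e, ∃ s : Fin 3, ∀ i : Fin 3,
  g (ee e i) = ee e (i + s) ∨ g (ee e i) = - ee e (i + s)

/-- NT5 (uses NT3, NT4). Some automorphism maps `ee 0` to `- ee 0`. Proof: if not, let `c` be as in
NT3; for each `g` the value `g (ee 0)` is determined by `s` (if `g (ee 0) = x`, `h (ee 0) = -x` then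
`g⁻¹ h (ee 0) = - ee 0`), so `t = ee 0 + c (ee 0) + c (c (ee 0))` is fixed by all `g`, hence
rational; it is an algebraic integer, so an integer. But `t = ± e 0 ± e 1 ± e 2` has one of the
values `6.10.., 4.18.., 3.33.., 1.41..` -/
def S_NT5 : Prop := ∀ e : Fin 3 → ℝ, EData e → FiniteDimensional ℚ (KK e) → IsGalois ℚ (KK e) →
  (∃ c : KK e ≃ₐ[ℚ] KK e, ∀ i : Fin 3, c (ee e i) = ee e (i + 1) ∨ c (ee e i) = - ee e (i + 1)) →
  (∀ g : KK e ≃ₐ[ℚ] KK e, ∃ s : Fin 3, ∀ i : Fin 3,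
    g (ee e i) = ee e (i + s) ∨ g (ee e i) = - ee e (i + s)) →
  ∃ g : KK e ≃ₐ[ℚ] KK e, g (ee e 0) = - ee e 0

/-- NT6 (uses NT3-5). The signed permutation representation. `ρ g i j = 1, -1, 0` according to
`g (ee j) = ee i`, `= - ee i`, neither. For `diag`: the `g` of NT5 has `s = 0` and, by
`ee 0 * ee 1 * ee 2 = 5`, signs `(-,-,+)` or `(-,+,-)`; conjugate by powers of `c`. -/
def S_NT6 : Prop := ∀ e : Fin 3 → ℝ, EData e →
  (∃ c : KK e ≃ₐ[ℚ] KK e, ∀ i : Fin 3, c (ee e i) = ee e (i + 1) ∨ c (ee e i) = - ee e (i + 1)) →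
  (∀ g : KK e ≃ₐ[ℚ] KK e, ∃ s : Fin 3, ∀ i : Fin 3,
    g (ee e i) = ee e (i + s) ∨ g (ee e i) = - ee e (i + s)) →
  (∃ g : KK e ≃ₐ[ℚ] KK e, g (ee e 0) = - ee e 0) →
  ∃ ρ : (KK e ≃ₐ[ℚ] KK e) → Matrix (Fin 3) (Fin 3) ℤ, RhoOK (KK e ≃ₐ[ℚ] KK e) ρ ∧
    (∀ g i j, ρ g i j = 1 ∨ ρ g i j = -1 ∨ ρ g i j = 0) ∧
    (∀ g i j, ρ g i j = 1 → g (ee e j) = ee e i) ∧
    (∀ g i j, ρ g i j = -1 → g (ee e j) = - ee e i) ∧
    (∀ g j, ∃ i, ρ g i j ≠ 0 ∧ ∀ i', i' ≠ i → ρ g i' j = 0)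

/-- the four rational numbers `4, 3/2, 1, 2` -/
noncomputable def mm : Fin 4 → ℚ := ![4, 3/2, 1, 2]

/-- `Φ_k(j) = log |(m_k + e_j)/(m_k - e_j)|` -/
noncomputable def PhR (e : Fin 3 → ℝ) (k : Fin 4) (j : Fin 3) : ℝ :=
  Real.log |((mm k : ℝ) + e j) / ((mm k : ℝ) - e j)|

/-- NT7. Diagonal dominance (`det_ne_zero_of_sum_row_lt_diag`): `|w_kk| > |w_kj| |w_kl|`. -/
def S_NT7 : Prop := ∀ e : Fin 3 → ℝ, EData e →
  (Matrix.of (fun k j : Fin 3 => PhR e (Fin.castSucc k) j)).det ≠ 0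

/-- NT8. `Φ_3` is not a rational combination of `Φ_0, Φ_1, Φ_2`. Proof: otherwise
`w_3(j)^m = ± ∏_k w_k(j)^{n_k}` for `j = 0,1,2` with `m > 0`, `w_k(j) = (m_k + e_j)/(m_k - e_j)`. Let
`N = 2·17·23·331`. For `k < 3`, `N^a w_k(j)^{±1}` is integral over ℤ for some `a` (because
`∏_j (M - e_j²) = M³-17M²+42M-25` is `391` at `M = 16`, `-331/64` at `M = 9/4`, `1` at `M = 1`), so
`N^a w_3(j)^{±1}` is integral for some `a`. But `∑_j (w_3(j) + w_3(j)⁻¹) = 346/65`, so `65 ∣ 346 N^a`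
(integrally closed), contradiction (13). -/
def S_NT8 : Prop := ∀ e : Fin 3 → ℝ, EData e → ∀ (m : ℤ) (n : Fin 3 → ℤ), m ≠ 0 →
  (∀ j, (m : ℝ) * PhR e 3 j = ∑ k : Fin 3, (n k : ℝ) * PhR e (Fin.castSucc k) j) → False

end Pool.Agent.T2h75.CL
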