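import Pool.Agent.T2h75.CL.Stm

set_option autoImplicit false

namespace Pool.Agent.T2h75.CL

theorem t_EQ : S_EQ := by
  intro K _ _ _ ι φ
  let _ : Algebra K ℝ := ι.toAlgebra
  have : IsScalarTower ℚ K ℝ := IsScalarTower.of_algebraMap_eq' (Subsingleton.elim _ _)
  refine ⟨Normal.algHomEquivAut ℚ ℝ K φ.toRatAlgHom, fun x => ?_⟩
  have h := (Normal.algHomEquivAut ℚ ℝ K).symm_apply_apply φ.toRatAlgHom
  have h2 := congrArg (fun f : K →ₐ[ℚ] ℝ => f x) h
  exact h2.symm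

end Pool.Agent.T2h75.CL
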