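import Pool.Agent.T2h75.CL.Stm

/-!
# Tasks LA and LB: linear algebra
-/

set_option autoImplicit false
set_option linter.unusedSectionVars false

namespace Pool.Agent.T2h75.CL

open scoped BigOperators Matrix

namespace LAaux

variable {G : Type} [Group G] {ρ : G → Matrix (Fin 3) (Fin 3) ℤ}

/-- the function attached to the matrix with the row `t` in the place `i` -/
def rowf (ρ : G → Matrix (Fin 3) (Fin 3) ℤ) (i : Fin 3) (t : Fin 3 → ℝ) : G → ℝ :=
  fun g => ∑ j, t j * (ρ g i j : ℝ)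

lemma yN_eq (N : Matrix (Fin 3) (Fin 3) ℝ) : yN ρ N = ∑ i, rowf ρ i (N i) := by
  funext g
  simp [yN, rowf]

lemma half (h : RhoOK G ρ) (N : Matrix (Fin 3) (Fin 3) ℝ) (i : Fin 3) : ∃ δ : G, ∀ g,
    yN ρ N g + yN ρ N (δ * g) = 2 * rowf ρ i (N i) g := by
  obtain ⟨δ, hδ⟩ := h.diag i
  refine ⟨δ, fun g => ?_⟩
  have e : ∀ a j, ρ (δ * g) a j = (if a = i then 1 else -1) * ρ g a j := by
    intro a j
    rw [h.mul, Matrix.mul_apply, Finset.sum_eq_single a]
    · rw [hδ, if_pos rfl]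
    · intro b _ hb
      rw [hδ, if_neg (fun hh => hb hh.symm), zero_mul]
    · intro hh
      exact absurd (Finset.mem_univ a) hh
  unfold yN rowf
  rw [← Finset.sum_add_distrib, Finset.sum_eq_single i]
  · rw [← Finset.sum_add_distrib, Finset.mul_sum]
    refine Finset.sum_congr rfl fun j _ => ?_
    rw [e, if_pos rfl]
    push_cast
    ring
  · intro a _ ha
    rw [← Finset.sum_add_distrib]
    refine Finset.sum_eq_zero fun j _ => ?_
    rw [e, if_neg ha]
    push_cast
    ring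
  · intro hh
    exact absurd (Finset.mem_univ i) hh

lemma trans (h : RhoOK G ρ) (i l : Fin 3) : ∃ c : G, ∃ ε : ℝ, (ε = 1 ∨ ε = -1) ∧ ∀ t g,
    rowf ρ i t (c * g) = ε * rowf ρ l t g := by
  obtain ⟨c, ε, hε, hc⟩ := h.perm i l
  refine ⟨c, (ε : ℝ), ?_, ?_⟩
  · rcases hε with rfl | rfl
    · left; norm_num
    · right; norm_num
  · intro t g
    unfold rowf
    rw [Finset.mul_sum]
    refine Finset.sum_congr rfl fun j _ => ?_
    have e : ρ (c * g) i j = ε * ρ g l j := by
      rw [h.mul, Matrix.mul_apply, Finset.sum_eq_single l]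
      · rw [hc, if_pos rfl]
      · intro b _ hb
        rw [hc, if_neg hb, zero_mul]
      · intro hh
        exact absurd (Finset.mem_univ l) hh
    rw [e]
    push_cast
    ring

/-- `yN ρ` is injective -/
lemma yN_inj (h : RhoOK G ρ) {N : Matrix (Fin 3) (Fin 3) ℝ} (h0 : yN ρ N = 0) : N = 0 := by
  ext i l
  obtain ⟨δ, hδ⟩ := half h N i
  obtain ⟨c, ε, hε, hc⟩ := h.perm i l
  have h1 := hδ c
  rw [h0] at h1
  have h2 : rowf ρ i (N i) c = 0 := by
    simp only [Pi.zero_apply] at h1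
    linarith
  unfold rowf at h2
  rw [Finset.sum_eq_single l] at h2
  · rw [hc, if_pos rfl] at h2
    rw [Matrix.zero_apply]
    rcases hε with rfl | rfl
    · simpa using h2
    · simpa using h2
  · intro b _ hb
    rw [hc, if_neg hb]
    simp
  · intro hh
    exact absurd (Finset.mem_univ l) hh

lemma yN_sub (N N' : Matrix (Fin 3) (Fin 3) ℝ) : yN ρ (N - N') = yN ρ N - yN ρ N' := by
  funext g
  simp [yN, sub_mul, Finset.sum_sub_distrib]

lemma yN_inj' (h : RhoOK G ρ) {N N' : Matrix (Fin 3) (Fin 3) ℝ} (h0 : yN ρ N = yN ρ N') :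
    N = N' := by
  refine sub_eq_zero.1 (yN_inj h ?_)
  rw [yN_sub, h0, sub_self]

/-- cancelling `Φ` -/
lemma cancel {Φ : Fin 3 → Fin 3 → ℝ} (hΦ : (Matrix.of Φ).det ≠ 0) {z : Fin 3 → ℝ}
    (hz : ∀ i, ∑ k, Φ k i * z k = 0) : z = 0 := by
  have h1 : Matrix.vecMul z (Matrix.of Φ) = 0 := by
    funext i
    rw [Matrix.vecMul, dotProduct, Pi.zero_apply, ← hz i]
    exact Finset.sum_congr rfl fun k _ => by rw [Matrix.of_apply, mul_comm]
  exact Matrix.eq_zero_of_vecMul_eq_zero hΦ h1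

lemma parallel {u t : Fin 3 → ℝ} (H : ∀ x : Fin 3 → ℝ, ∃ (S : Fin 3 → Fin 3 → ℝ)
    (r : Fin 3 → ℝ), (∀ i j, S i j = S j i) ∧ ∀ k j, x k * t j = S k j + u k * r j) :
    ∀ a b, t a * u b = t b * u a := by
  have key : ∀ x : Fin 3 → ℝ, u 0 * (x 1 * t 2 - x 2 * t 1) - u 1 * (x 0 * t 2 - x 2 * t 0) +
      u 2 * (x 0 * t 1 - x 1 * t 0) = 0 := by
    intro x
    obtain ⟨S, r, hS, h⟩ := H x
    linear_combination u 0 * (h 1 2 - h 2 1) - u 1 * (h 0 2 - h 2 0) + u 2 * (h 0 1 - h 1 0) +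
      u 0 * hS 1 2 - u 1 * hS 0 2 + u 2 * hS 0 1
  have k0 := key ![1, 0, 0]
  have k1 := key ![0, 1, 0]
  have k2 := key ![0, 0, 1]
  simp at k0 k1 k2
  intro a b
  fin_cases a <;> fin_cases b <;> simp <;> linarith

/-- if a row function of `t` is in `V` then `t` is parallel to `u` -/
lemma row_par (h : RhoOK G ρ) {Φ : Fin 3 → Fin 3 → ℝ} {φ₄ u : Fin 3 → ℝ}
    (hΦ : (Matrix.of Φ).det ≠ 0) (hu : ∀ i, φ₄ i = ∑ k, u k * Φ k i)
    {V : Submodule ℝ (G → ℝ)} (hV : ∀ v ∈ V, ∃ (S : Fin 3 → Fin 3 → ℝ) (r : Fin 3 → ℝ),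
      (∀ i j, S i j = S j i) ∧ v = yN ρ (NN Φ φ₄ S r))
    (hT : ∀ v ∈ V, ∀ τ : G, (fun g => v (τ * g)) ∈ V) {i : Fin 3} {t : Fin 3 → ℝ}
    (ht : rowf ρ i t ∈ V) : ∀ a b, t a * u b = t b * u a := by
  have hl : ∀ l, rowf ρ l t ∈ V := by
    intro l
    obtain ⟨c, ε, hε, hc⟩ := trans h i l
    have h1 := hT _ ht c
    have h2 : (fun g => rowf ρ i t (c * g)) = ε • rowf ρ l t := by
      funext g
      rw [hc, Pi.smul_apply, smul_eq_mul]
    rw [h2] at h1
    have hε0 : ε ≠ 0 := by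
      rcases hε with rfl | rfl <;> norm_num
    exact (V.smul_mem_iff hε0).1 h1
  apply parallel
  intro x
  have hx : yN ρ (Matrix.of fun a b => (∑ k, Φ k a * x k) * t b) ∈ V := by
    rw [yN_eq]
    refine Submodule.sum_mem _ fun a _ => ?_
    have e : rowf ρ a ((Matrix.of fun a b => (∑ k, Φ k a * x k) * t b) a) =
        (∑ k, Φ k a * x k) • rowf ρ a t := by
      funext g
      simp only [rowf, Matrix.of_apply, Pi.smul_apply, smul_eq_mul]
      rw [Finset.mul_sum]
      exact Finset.sum_congr rfl fun j _ => by ring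
    rw [e]
    exact V.smul_mem _ (hl a)
  obtain ⟨S, r, hS, hv⟩ := hV _ hx
  refine ⟨S, r, hS, ?_⟩
  have hN := yN_inj' h hv
  intro k j
  have hz : (fun k => x k * t j - S k j - u k * r j) = 0 := by
    refine cancel hΦ fun i => ?_
    have h1 := congrFun (congrFun hN i) j
    simp only [Matrix.of_apply, NN] at h1
    rw [hu] at h1
    simp only [mul_sub, Finset.sum_sub_distrib]
    rw [Finset.sum_mul, Finset.sum_mul] at h1
    have e1 : ∑ k, Φ k i * (x k * t j) = ∑ k, Φ k i * x k * t j :=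
      Finset.sum_congr rfl fun k _ => by ring
    have e2 : ∑ k, Φ k i * (u k * r j) = ∑ k, u k * Φ k i * r j :=
      Finset.sum_congr rfl fun k _ => by ring
    rw [e1, e2, h1]
    ring
  have := congrFun hz k
  simp only [Pi.zero_apply] at this
  linarith

end LAaux

open LAaux in
theorem t_LA : S_LA := by
  intro G _ _ ρ h Φ φ₄ u hΦ hu V hV0 hV hT hH f a b
  obtain ⟨v, hv, hv0⟩ := (Submodule.ne_bot_iff V).1 hV0
  by_cases hu0 : u = 0
  · rw [hu0]
    simp
  obtain ⟨S, r, hS, rfl⟩ := hV v hv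
  set N := NN Φ φ₄ S r with hN
  have hN0 : N ≠ 0 := by
    intro h0
    apply hv0
    rw [h0]
    funext g
    simp [yN]
  have hi : ∃ i, N i ≠ 0 := by
    by_contra hc
    push Not at hc
    exact hN0 (by ext i j; rw [hc i]; rfl)
  obtain ⟨i, hi⟩ := hi
  have hrow : rowf ρ i (N i) ∈ V := by
    obtain ⟨δ, hδ⟩ := half h N i
    have h1 := V.add_mem hv (hT _ hv δ)
    have h2 : (yN ρ N + fun g => yN ρ N (δ * g)) = (2 : ℝ) • rowf ρ i (N i) := by
      funext g
      rw [Pi.add_apply, hδ, Pi.smul_apply, smul_eq_mul]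
    rw [h2] at h1
    exact (V.smul_mem_iff two_ne_zero).1 h1
  set t := N i with ht
  have hp := row_par h hΦ hu hV hT hrow
  obtain ⟨b₀, hb₀⟩ : ∃ b₀, u b₀ ≠ 0 := by
    by_contra hc
    push Not at hc
    exact hu0 (funext hc)
  set κ := t b₀ / u b₀ with hκ
  have htκ : ∀ j, t j = κ * u j := by
    intro j
    rw [hκ, div_mul_eq_mul_div, eq_div_iff hb₀]
    exact hp j b₀
  have hκ0 : κ ≠ 0 := by
    intro h0
    apply hi
    funext j
    rw [htκ, h0, zero_mul]
    rfl
  have hrow' : rowf ρ i (fun j => f (u j)) ∈ V := by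
    refine hH _ hrow _ ?_
    intro m hm
    have e1 : ∑ g, (m g : ℝ) * rowf ρ i t g = κ * ∑ j, ((∑ g, m g * ρ g i j : ℤ) : ℝ) * u j := by
      unfold rowf
      simp only [Finset.mul_sum, htκ]
      rw [Finset.sum_comm]
      refine Finset.sum_congr rfl fun j _ => ?_
      push_cast
      rw [Finset.sum_mul, Finset.mul_sum]
      exact Finset.sum_congr rfl fun g _ => by ring
    rw [e1] at hm
    have hm' : ∑ j, ((∑ g, m g * ρ g i j : ℤ) : ℝ) * u j = 0 := by
      rcases mul_eq_zero.1 hm with h0 | h0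
      · exact absurd h0 hκ0
      · exact h0
    have e2 : ∑ g, (m g : ℝ) * rowf ρ i (fun j => f (u j)) g =
        ∑ j, ((∑ g, m g * ρ g i j : ℤ) : ℝ) * f (u j) := by
      unfold rowf
      simp only [Finset.mul_sum]
      rw [Finset.sum_comm]
      refine Finset.sum_congr rfl fun j _ => ?_
      push_cast
      rw [Finset.sum_mul]
      exact Finset.sum_congr rfl fun g _ => by ring
    rw [e2]
    have h3 := congrArg f hm'
    rw [map_zero, map_sum] at h3
    rw [← h3]
    refine Finset.sum_congr rfl fun j _ => ?_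
    have e3 : ((∑ g, m g * ρ g i j : ℤ) : ℝ) * u j = ((∑ g, m g * ρ g i j : ℤ) : ℚ) • u j := by
      rw [Rat.smul_def]
      push_cast
      rfl
    rw [e3, map_smul, Rat.smul_def]
    push_cast
    rfl
  exact row_par h hΦ hu hV hT hrow' a b

open LAaux in
theorem t_LB : S_LB := by
  intro G _ _ ρ h Φ φ₄ u hΦ hu hneg
  constructor
  · intro x hx
    have hN := yN_inj h hx
    have hcol : ∀ i j, ∑ k, Φ k i * Sx (fun i => (x i : ℝ)) k j +
        φ₄ i * rx (fun i => (x i : ℝ)) j = 0 := by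
      intro i j
      have := congrFun (congrFun hN i) j
      simpa [NN] using this
    have hr : ∀ j, rx x j = 0 := by
      intro j
      by_contra hne
      refine hneg (rx x j) (fun k => - Sx x k j) hne ?_
      intro i
      have h1 := hcol i j
      have e1 : rx (fun i => (x i : ℝ)) j = ((rx x j : ℤ) : ℝ) := by
        fin_cases j <;> simp [rx]
      have e2 : ∀ k, Sx (fun i => (x i : ℝ)) k j = ((Sx x k j : ℤ) : ℝ) := by
        intro k
        fin_cases k <;> fin_cases j <;> simp [Sx]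
      simp only [e1, e2] at h1
      have e3 : ∑ k, ((-Sx x k j : ℤ) : ℝ) * Φ k i = - ∑ k, Φ k i * ((Sx x k j : ℤ) : ℝ) := by
        rw [← Finset.sum_neg_distrib]
        refine Finset.sum_congr rfl fun k _ => ?_
        push_cast
        ring
      rw [e3]
      linarith
    have hS : ∀ j, (fun k => Sx (fun i => (x i : ℝ)) k j) = 0 := by
      intro j
      refine cancel hΦ fun i => ?_
      have h1 := hcol i j
      have e1 : rx (fun i => (x i : ℝ)) j = ((rx x j : ℤ) : ℝ) := by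
        fin_cases j <;> simp [rx]
      rw [e1, hr j] at h1
      simpa using h1
    have a0 := congrFun (hS 0) 0
    have a1 := congrFun (hS 1) 0
    have a2 := congrFun (hS 2) 0
    have a3 := congrFun (hS 1) 1
    have a4 := congrFun (hS 2) 1
    have a5 := congrFun (hS 2) 2
    have a6 := hr 0
    have a7 := hr 1
    have a8 := hr 2
    simp [Sx] at a0 a1 a2 a3 a4 a5
    simp [rx] at a6 a7 a8
    funext i
    fin_cases i <;> simpa
  · refine ⟨![-(u 0 * u 0), -(u 0 * u 1), -(u 0 * u 2), -(u 1 * u 1), -(u 1 * u 2),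
      -(u 2 * u 2), u 0, u 1, u 2], ?_, ?_⟩
    · intro hc
      have a6 := congrFun hc 6
      have a7 := congrFun hc 7
      have a8 := congrFun hc 8
      simp at a6 a7 a8
      refine hneg 1 0 one_ne_zero fun j => ?_
      rw [hu]
      simp [Fin.sum_univ_three, a6, a7, a8]
    · have hz : NN Φ φ₄ (Sx ![-(u 0 * u 0), -(u 0 * u 1), -(u 0 * u 2), -(u 1 * u 1), -(u 1 * u 2),
          -(u 2 * u 2), u 0, u 1, u 2]) (rx ![-(u 0 * u 0), -(u 0 * u 1), -(u 0 * u 2),
          -(u 1 * u 1), -(u 1 * u 2), -(u 2 * u 2), u 0, u 1, u 2]) = 0 := by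
        ext i j
        simp only [NN, Matrix.of_apply, Matrix.zero_apply]
        rw [hu, Fin.sum_univ_three, Fin.sum_univ_three]
        fin_cases j <;> simp [Sx, rx] <;> ring
      rw [hz]
      funext g
      simp [yN]

end Pool.Agent.T2h75.CL
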