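import Pool.Agent.T2h75.CL.T_LA

/-!
# Task LB: the theorem `t_LB` is in the file `T_LA.lean`
-/
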