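import Pool.Agent.T2h75.CL.Stm

set_option autoImplicit false

namespace Pool.Agent.T2h75.CL

namespace NT0aux

lemma root_ex : ∃ a : ℝ, (141376 / 10000 : ℝ) < a ∧ a < 142129 / 10000 ∧
    a ^ 3 - 17 * a ^ 2 + 42 * a - 25 = 0 := by
  have hc : ContinuousOn (fun a : ℝ => a ^ 3 - 17 * a ^ 2 + 42 * a - 25)
      (Set.Icc (141376 / 10000 : ℝ) (142129 / 10000)) := by fun_prop
  have := intermediate_value_Ioo (by norm_num : (141376 / 10000 : ℝ) ≤ 142129 / 10000) hc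
  obtain ⟨a, ha, h0⟩ := this (show (0 : ℝ) ∈ _ by constructor <;> norm_num)
  exact ⟨a, ha.1, ha.2, h0⟩

end NT0aux

theorem t_NT0 : S_NT0 := by
  obtain ⟨a, ha1, ha2, ha⟩ := NT0aux.root_ex
  have d1 : 0 < a - 1 := by linarith
  have d2 : 0 < a - 2 := by linarith
  obtain ⟨b, hb⟩ : ∃ b : ℝ, b = 2 - 1 / (a - 1) := ⟨_, rfl⟩
  obtain ⟨c, hc⟩ : ∃ c : ℝ, c = 1 - 1 / (a - 2) := ⟨_, rfl⟩
  have hb' : b * (a - 1) = 2 * a - 3 := by rw [hb]; field_simp; ring
  have hc' : c * (a - 2) = a - 3 := by rw [hc]; field_simp; ring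
  have b1 : (1386 / 1000 : ℝ) ^ 2 < b := by
    have : 1 / (a - 1) < 2 - (1386 / 1000 : ℝ) ^ 2 := by
      rw [div_lt_iff₀ d1]; nlinarith
    rw [hb]; linarith
  have b2 : b < (1388 / 1000 : ℝ) ^ 2 := by
    have : 2 - (1388 / 1000 : ℝ) ^ 2 < 1 / (a - 1) := by
      rw [lt_div_iff₀ d1]; nlinarith
    rw [hb]; linarith
  have c1 : (957 / 1000 : ℝ) ^ 2 < c := by
    have : 1 / (a - 2) < 1 - (957 / 1000 : ℝ) ^ 2 := by
      rw [div_lt_iff₀ d2]; nlinarith
    rw [hc]; linarith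
  have c2 : c < (959 / 1000 : ℝ) ^ 2 := by
    have : 1 - (959 / 1000 : ℝ) ^ 2 < 1 / (a - 2) := by
      rw [lt_div_iff₀ d2]; nlinarith
    rw [hc]; linarith
  have hd : (a - 1) * (a - 2) ≠ 0 := (mul_pos d1 d2).ne'
  have hs1 : a + b + c = 17 := by
    apply mul_left_cancel₀ hd
    linear_combination (a - 2) * hb' + (a - 1) * hc' + ha
  have hs2 : a * b + a * c + b * c = 42 := by
    apply mul_left_cancel₀ hd
    linear_combination (a * (a - 2) + c * (a - 2)) * hb' + (a * (a - 1) + (2 * a - 3)) * hc' + 3 * ha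
  have hs3 : a * b * c = 25 := by
    apply mul_left_cancel₀ hd
    linear_combination (a * c * (a - 2)) * hb' + (a * (2 * a - 3)) * hc' + 2 * ha
  have pa : 0 < a := by linarith
  have pb : 0 < b := by nlinarith
  have pc : 0 < c := by nlinarith
  have sa := Real.sq_sqrt pa.le
  have sb := Real.sq_sqrt pb.le
  have sc := Real.sq_sqrt pc.le
  refine ⟨![Real.sqrt a, Real.sqrt b, Real.sqrt c], ?_⟩
  constructor
  · change _ < Real.sqrt a
    apply Real.lt_sqrt_of_sq_lt; linarith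
  · change Real.sqrt a < _
    rw [Real.sqrt_lt' (by norm_num)]; linarith
  · change _ < Real.sqrt b
    exact Real.lt_sqrt_of_sq_lt b1
  · change Real.sqrt b < _
    rw [Real.sqrt_lt' (by norm_num)]; exact b2
  · change _ < Real.sqrt c
    exact Real.lt_sqrt_of_sq_lt c1
  · change Real.sqrt c < _
    rw [Real.sqrt_lt' (by norm_num)]; exact c2
  · change Real.sqrt a * Real.sqrt b * Real.sqrt c = 5
    rw [← Real.sqrt_mul pa.le, ← Real.sqrt_mul (by positivity), hs3,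
      show (25 : ℝ) = 5 ^ 2 by norm_num, Real.sqrt_sq (by norm_num)]
  · have key : ∀ x : ℝ, x = a ∨ x = b ∨ x = c → x ^ 3 - 17 * x ^ 2 + 42 * x - 25 = 0 := by
      intro x hx
      have h0 : (x - a) * (x - b) * (x - c) = 0 := by
        rcases hx with rfl | rfl | rfl <;> ring
      linear_combination h0 + x ^ 2 * hs1 - x * hs2 + hs3
    intro i
    fin_cases i
    · change (Real.sqrt a) ^ 6 - 17 * (Real.sqrt a) ^ 4 + 42 * (Real.sqrt a) ^ 2 - 25 = 0
      have := key a (Or.inl rfl)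
      rw [← sa] at this
      linear_combination this
    · change (Real.sqrt b) ^ 6 - 17 * (Real.sqrt b) ^ 4 + 42 * (Real.sqrt b) ^ 2 - 25 = 0
      have := key b (Or.inr (Or.inl rfl))
      rw [← sb] at this
      linear_combination this
    · change (Real.sqrt c) ^ 6 - 17 * (Real.sqrt c) ^ 4 + 42 * (Real.sqrt c) ^ 2 - 25 = 0
      have := key c (Or.inr (Or.inr rfl))
      rw [← sc] at this
      linear_combination this
  · change (Real.sqrt a) ^ 2 + (Real.sqrt b) ^ 2 + (Real.sqrt c) ^ 2 = 17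
    rw [sa, sb, sc, hs1]
  · change (Real.sqrt a) ^ 2 * (Real.sqrt b) ^ 2 + (Real.sqrt a) ^ 2 * (Real.sqrt c) ^ 2 +
      (Real.sqrt b) ^ 2 * (Real.sqrt c) ^ 2 = 42
    rw [sa, sb, sc, hs2]
  · change (Real.sqrt b) ^ 2 * ((Real.sqrt a) ^ 2 - 1) = 2 * (Real.sqrt a) ^ 2 - 3
    rw [sa, sb, hb']
  · change (Real.sqrt c) ^ 2 * ((Real.sqrt b) ^ 2 - 1) = 2 * (Real.sqrt b) ^ 2 - 3
    rw [sc, sb]
    apply mul_left_cancel₀ hd
    linear_combination (c * (a - 2) - 2 * (a - 2)) * hb' + (a - 2) * hc'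
  · change (Real.sqrt a) ^ 2 * ((Real.sqrt c) ^ 2 - 1) = 2 * (Real.sqrt c) ^ 2 - 3
    rw [sa, sc]
    apply mul_left_cancel₀ d2.ne'
    linear_combination (a - 2) * hc'

end Pool.Agent.T2h75.CL
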