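import Pool.Agent.T2h75.CL.Stm

set_option autoImplicit false

namespace Pool.Agent.T2h75.CL

namespace NT1aux

open Polynomial

/-- the polynomial -/
noncomputable def pp : ℚ[X] := X ^ 6 - C 17 * X ^ 4 + C 42 * X ^ 2 - C 25

lemma aeval_pp (x : ℝ) : aeval x pp = x ^ 6 - 17 * x ^ 4 + 42 * x ^ 2 - 25 := by
  simp [pp]

lemma pp_ne : pp ≠ 0 := by
  intro h
  have := aeval_pp 0
  rw [h] at this
  norm_num at this

variable {e : Fin 3 → ℝ} (h : EData e)

include h

lemma sq_prod : (e 0) ^ 2 * (e 1) ^ 2 * (e 2) ^ 2 = 25 := by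
  have := h.prod
  have h2 : (e 0 * e 1 * e 2) ^ 2 = 25 := by rw [this]; norm_num
  linear_combination h2

lemma map_pp : pp.map (algebraMap ℚ ℝ) = ((X - C (e 0)) * (X - C (-e 0))) *
    ((X - C (e 1)) * (X - C (-e 1))) * ((X - C (e 2)) * (X - C (-e 2))) := by
  have e1 : pp.map (algebraMap ℚ ℝ) = X ^ 6 - C 17 * X ^ 4 + C 42 * X ^ 2 - C 25 := by
    simp [pp]
  have e2 : ((X - C (e 0)) * (X - C (-e 0))) * ((X - C (e 1)) * (X - C (-e 1))) *
      ((X - C (e 2)) * (X - C (-e 2))) = X ^ 6 - C ((e 0)^2 + (e 1)^2 + (e 2)^2) * X ^ 4 +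
        C ((e 0)^2 * (e 1)^2 + (e 0)^2 * (e 2)^2 + (e 1)^2 * (e 2)^2) * X ^ 2 -
        C ((e 0) ^ 2 * (e 1) ^ 2 * (e 2) ^ 2) := by
    simp only [C_add, C_mul, C_neg, C_pow]
    ring
  rw [e1, e2, h.s1, h.s2, sq_prod h]

lemma splits_pp : (pp.map (algebraMap ℚ ℝ)).Splits := by
  rw [map_pp h]
  exact (((Splits.X_sub_C _).mul (Splits.X_sub_C _)).mul
    ((Splits.X_sub_C _).mul (Splits.X_sub_C _))).mul
    ((Splits.X_sub_C _).mul (Splits.X_sub_C _))

lemma roots (x : ℝ) (hx : x ^ 6 - 17 * x ^ 4 + 42 * x ^ 2 - 25 = 0) :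
    ∃ i, x = e i ∨ x = - e i := by
  have h0 : (x - e 0) * (x + e 0) * ((x - e 1) * (x + e 1)) * ((x - e 2) * (x + e 2)) = 0 := by
    linear_combination hx - x ^ 4 * h.s1 + x ^ 2 * h.s2 - sq_prod h
  rcases mul_eq_zero.mp h0 with h0 | h0
  · rcases mul_eq_zero.mp h0 with h0 | h0
    · rcases mul_eq_zero.mp h0 with h0 | h0
      · exact ⟨0, Or.inl (by linarith)⟩
      · exact ⟨0, Or.inr (by linarith)⟩
    · rcases mul_eq_zero.mp h0 with h0 | h0
      · exact ⟨1, Or.inl (by linarith)⟩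
      · exact ⟨1, Or.inr (by linarith)⟩
  · rcases mul_eq_zero.mp h0 with h0 | h0
    · exact ⟨2, Or.inl (by linarith)⟩
    · exact ⟨2, Or.inr (by linarith)⟩

lemma KK_eq : KK e = IntermediateField.adjoin ℚ (pp.rootSet ℝ) := by
  apply le_antisymm
  · rw [IntermediateField.adjoin_le_iff]
    rintro _ ⟨i, rfl⟩
    apply IntermediateField.subset_adjoin
    rw [Polynomial.mem_rootSet]
    exact ⟨pp_ne, by rw [aeval_pp, h.root i]⟩
  · rw [IntermediateField.adjoin_le_iff]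
    intro x hx
    rw [Polynomial.mem_rootSet] at hx
    obtain ⟨i, hi⟩ := roots h x (by rw [← aeval_pp]; exact hx.2)
    have hm : e i ∈ KK e := IntermediateField.subset_adjoin ℚ _ ⟨i, rfl⟩
    rcases hi with rfl | rfl
    · exact hm
    · exact neg_mem hm

end NT1aux

open NT1aux

theorem t_NT1 : S_NT1 := by
  intro e h
  have key : ∀ F : IntermediateField ℚ ℝ, F = IntermediateField.adjoin ℚ (pp.rootSet ℝ) →
      FiniteDimensional ℚ F ∧ IsGalois ℚ F := by
    rintro _ rfl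
    have hs : Polynomial.IsSplittingField ℚ (IntermediateField.adjoin ℚ (pp.rootSet ℝ)) pp :=
      IntermediateField.adjoin_rootSet_isSplittingField (splits_pp h)
    have hfd : FiniteDimensional ℚ (IntermediateField.adjoin ℚ (pp.rootSet ℝ)) :=
      Polynomial.IsSplittingField.finiteDimensional _ pp
    refine ⟨hfd, ?_⟩
    have : Normal ℚ (IntermediateField.adjoin ℚ (pp.rootSet ℝ)) := Normal.of_isSplittingField pp
    exact { }
  exact key _ (KK_eq h)

end Pool.Agent.T2h75.CL
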