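import Pool.Agent.T2h75.CL.Stm

/-! Project CL, task NT2 (helper49). -/

set_option autoImplicit false

namespace Pool.Agent.T2h75.CL

open NumberField

theorem t_NT2 : S_NT2 := by
  intro K _ _ _ ι
  refine ⟨fun v => ?_⟩
  have h0 : ComplexEmbedding.IsReal ((algebraMap ℝ ℂ).comp ι) := by
    rw [ComplexEmbedding.isReal_iff]
    ext x
    simp [ComplexEmbedding.conjugate_coe_eq, Complex.conj_ofReal]
  have h1 : (InfinitePlace.mk ((algebraMap ℝ ℂ).comp ι)).IsReal := ⟨_, h0, rfl⟩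
  obtain ⟨σ, hσ⟩ := InfinitePlace.exists_smul_eq_of_comap_eq (k := ℚ)
    (w := InfinitePlace.mk ((algebraMap ℝ ℂ).comp ι)) (w' := v) (Subsingleton.elim _ _)
  rw [← hσ, InfinitePlace.isReal_smul_iff]
  exact h1

end Pool.Agent.T2h75.CL
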