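import Pool.Agent.T2h75.CL.T_NT4

/-! Project CL, task NT3 (helper49). -/

set_option autoImplicit false

namespace Pool.Agent.T2h75.CL

open Polynomial

namespace H49

/-- the cubic -/
noncomputable def cub : ℚ[X] := X ^ 3 - 17 * X ^ 2 + 42 * X - 25

theorem cub_eq : cub = X ^ 3 + (C (-17) * X ^ 2 + C 42 * X + C (-25)) := by
  unfold cub
  rw [show (17 : ℚ[X]) = C 17 from rfl, show (42 : ℚ[X]) = C 42 from rfl,
    show (25 : ℚ[X]) = C 25 from rfl, C_neg, C_neg]
  ring

theorem cub_deg : (C (-17 : ℚ) * X ^ 2 + C 42 * X + C (-25)).degree < 3 := by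
  refine lt_of_le_of_lt (degree_quadratic_le) ?_
  norm_num

theorem cub_monic : cub.Monic := by
  rw [cub_eq]
  exact monic_X_pow_add cub_deg

theorem cub_natDegree : cub.natDegree = 3 := by
  rw [cub_eq]
  have h : (X ^ 3 + (C (-17 : ℚ) * X ^ 2 + C 42 * X + C (-25))).degree = 3 := by
    rw [degree_add_eq_left_of_degree_lt]
    · exact degree_X_pow 3
    · rw [degree_X_pow]
      exact cub_deg
  exact natDegree_eq_of_degree_eq_some h

theorem cub_eval (r : ℚ) : eval r cub = r ^ 3 - 17 * r ^ 2 + 42 * r - 25 := by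
  unfold cub
  simp

theorem no_root (r : ℚ) : eval r cub ≠ 0 := by
  intro h
  rw [cub_eval] at h
  -- `r` is an integer
  have hint : IsIntegral ℤ r := by
    refine ⟨X ^ 3 + (C (-17) * X ^ 2 + C 42 * X + C (-25)), ?_, ?_⟩
    · refine monic_X_pow_add (lt_of_le_of_lt (degree_quadratic_le) ?_)
      norm_num
    · simp only [eval₂_add, eval₂_mul, eval₂_pow, eval₂_X, eval₂_C]
      have e1 : (algebraMap ℤ ℚ) (-17) = -17 := by norm_num
      have e2 : (algebraMap ℤ ℚ) 42 = 42 := by norm_num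
      have e3 : (algebraMap ℤ ℚ) (-25) = -25 := by norm_num
      rw [e1, e2, e3]
      linarith
  obtain ⟨n, hn⟩ := IsIntegrallyClosed.isIntegral_iff.1 hint
  have hn' : r = (n : ℚ) := by rw [← hn]; rfl
  rw [hn'] at h
  have h2 : n ^ 3 - 17 * n ^ 2 + 42 * n - 25 = 0 := by exact_mod_cast h
  have h3 : Even (n ^ 2 * (n - 1)) := by
    rcases Int.even_or_odd n with h | h
    · exact (h.pow_of_ne_zero two_ne_zero).mul_right _
    · exact (h.sub_odd odd_one).mul_left _
  obtain ⟨k, hk⟩ := h3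
  have h4 : n ^ 3 = k + k + n ^ 2 := by linear_combination hk
  rw [h4] at h2
  omega

theorem cub_irreducible : Irreducible cub := by
  rw [cub_monic.irreducible_iff_roots_eq_zero_of_degree_le_three (by rw [cub_natDegree]; norm_num)
    (by rw [cub_natDegree])]
  rw [Multiset.eq_zero_iff_forall_notMem]
  intro r hr
  exact no_root r ((mem_roots cub_monic.ne_zero).1 hr)

variable {e : Fin 3 → ℝ}

theorem minpoly_sq (he : EData e) (i : Fin 3) : minpoly ℚ ((ee e i) ^ 2) = cub := by
  refine (minpoly.eq_of_irreducible_of_monic cub_irreducible ?_ cub_monic).symm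
  unfold cub
  simp only [map_sub, map_add, map_mul, map_pow, aeval_X, map_ofNat]
  exact root he i

end H49

open H49 in
theorem t_NT3 : S_NT3 := by
  intro e he _ hG
  have h1 : minpoly ℚ ((ee e 1) ^ 2) = minpoly ℚ ((ee e 0) ^ 2) := by
    rw [minpoly_sq he, minpoly_sq he]
  obtain ⟨c, hc⟩ := (Normal.minpoly_eq_iff_mem_orbit (KK e)).1 h1
  have hc' : c (ee e 0) ^ 2 = (ee e 1) ^ 2 := by
    rw [← map_pow]
    exact hc
  exact ⟨c, perm he c 1 hc'⟩

end Pool.Agent.T2h75.CL
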