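import Pool.Agent.T2h75.CL.Stm

/-! Project CL, task NT4 (helper49). -/

set_option autoImplicit false

namespace Pool.Agent.T2h75.CL

namespace H49

variable {e : Fin 3 → ℝ}

theorem aee (i : Fin 3) : algebraMap (KK e) ℝ (ee e i) = e i := rfl

theorem cyc (he : EData e) (i : Fin 3) :
    (ee e (i + 1)) ^ 2 * ((ee e i) ^ 2 - 1) = 2 * (ee e i) ^ 2 - 3 := by
  apply (algebraMap (KK e) ℝ).injective
  simp only [map_mul, map_sub, map_pow, map_ofNat, map_one, aee]
  fin_cases i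
  · exact he.cyc0
  · exact he.cyc1
  · exact he.cyc2

theorem root (he : EData e) (i : Fin 3) :
    ((ee e i) ^ 2) ^ 3 - 17 * ((ee e i) ^ 2) ^ 2 + 42 * (ee e i) ^ 2 - 25 = 0 := by
  apply (algebraMap (KK e) ℝ).injective
  simp only [map_mul, map_sub, map_add, map_pow, map_ofNat, map_zero, aee]
  linear_combination he.root i

theorem fact (he : EData e) (x : KK e) : (x - (ee e 0) ^ 2) * (x - (ee e 1) ^ 2) * (x - (ee e 2) ^ 2) =
    x ^ 3 - 17 * x ^ 2 + 42 * x - 25 := by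
  apply (algebraMap (KK e) ℝ).injective
  simp only [map_mul, map_sub, map_add, map_pow, map_ofNat, aee]
  have p2 : (e 0) ^ 2 * (e 1) ^ 2 * (e 2) ^ 2 = 25 := by
    have h := he.prod
    calc (e 0) ^ 2 * (e 1) ^ 2 * (e 2) ^ 2 = (e 0 * e 1 * e 2) ^ 2 := by ring
      _ = 25 := by rw [h]; norm_num
  generalize algebraMap (KK e) ℝ x = y
  linear_combination (-y ^ 2) * he.s1 + y * he.s2 - p2

theorem ne_one (he : EData e) (i : Fin 3) : (ee e i) ^ 2 - 1 ≠ 0 := by
  intro h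
  have h1 := root he i
  have h2 : (ee e i) ^ 2 = 1 := sub_eq_zero.1 h
  rw [h2] at h1
  norm_num at h1

/-- the squares are permuted cyclically -/
theorem sq_perm (he : EData e) (g : KK e ≃ₐ[ℚ] KK e) (s : Fin 3)
    (hs : g (ee e 0) ^ 2 = (ee e s) ^ 2) (i : Fin 3) : g (ee e i) ^ 2 = (ee e (i + s)) ^ 2 := by
  have step : ∀ j : Fin 3, g (ee e j) ^ 2 = (ee e (j + s)) ^ 2 →
      g (ee e (j + 1)) ^ 2 = (ee e (j + 1 + s)) ^ 2 := by
    intro j hj
    have h1 := congrArg g (cyc he j)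
    simp only [map_mul, map_sub, map_pow, map_one, map_ofNat] at h1
    rw [hj] at h1
    have h2 := cyc he (j + s)
    have h3 : j + s + 1 = j + 1 + s := by rw [add_right_comm]
    rw [h3] at h2
    rw [← h2] at h1
    exact mul_right_cancel₀ (ne_one he (j + s)) h1
  have c0 : g (ee e 0) ^ 2 = (ee e (0 + s)) ^ 2 := by rw [zero_add]; exact hs
  have c1 := step 0 c0
  have c2 := step (0 + 1) c1
  fin_cases i
  · exact c0
  · exact c1
  · exact c2

theorem perm (he : EData e) (g : KK e ≃ₐ[ℚ] KK e) (s : Fin 3)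
    (hs : g (ee e 0) ^ 2 = (ee e s) ^ 2) (i : Fin 3) :
    g (ee e i) = ee e (i + s) ∨ g (ee e i) = - ee e (i + s) :=
  sq_eq_sq_iff_eq_or_eq_neg.1 (sq_perm he g s hs i)

theorem exists_s (he : EData e) (g : KK e ≃ₐ[ℚ] KK e) :
    ∃ s : Fin 3, g (ee e 0) ^ 2 = (ee e s) ^ 2 := by
  have h1 := congrArg g (root he 0)
  simp only [map_mul, map_sub, map_add, map_pow, map_ofNat, map_zero] at h1
  have h2 := fact he (g (ee e 0) ^ 2)
  rw [h1] at h2
  rcases mul_eq_zero.1 h2 with h | h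
  · rcases mul_eq_zero.1 h with h | h
    · exact ⟨0, sub_eq_zero.1 h⟩
    · exact ⟨1, sub_eq_zero.1 h⟩
  · exact ⟨2, sub_eq_zero.1 h⟩

end H49

theorem t_NT4 : S_NT4 := by
  intro e he g
  obtain ⟨s, hs⟩ := H49.exists_s he g
  exact ⟨s, H49.perm he g s hs⟩

end Pool.Agent.T2h75.CL
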