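import Pool.Agent.T2h75.CL.Stm

set_option autoImplicit false

namespace Pool.Agent.T2h75.CL

namespace NT5

theorem sq_inj {e : Fin 3 → ℝ} (he : EData e) {i j : Fin 3} (h : (e i) ^ 2 = (e j) ^ 2) : i = j := by
  have l0 := he.lo0
  have h0 := he.hi0
  have l1 := he.lo1
  have h1 := he.hi1
  have l2 := he.lo2
  have h2 := he.hi2
  have hpos : ∀ i, 0 < e i := by
    intro i
    fin_cases i
    · show 0 < e 0; linarith
    · show 0 < e 1; linarith
    · show 0 < e 2; linarith
  have h3 : e i = e j := by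
    exact (pow_left_inj₀ (hpos i).le (hpos j).le two_ne_zero).1 h
  have l01 : e 0 ≠ e 1 := by intro h; linarith
  have l02 : e 0 ≠ e 2 := by intro h; linarith
  have l12 : e 1 ≠ e 2 := by intro h; linarith
  fin_cases i <;> fin_cases j
  · rfl
  · exact absurd h3 l01
  · exact absurd h3 l02
  · exact absurd h3 l01.symm
  · rfl
  · exact absurd h3 l12
  · exact absurd h3 l02.symm
  · exact absurd h3 l12.symm
  · rfl

theorem int_e {e : Fin 3 → ℝ} (he : EData e) (i : Fin 3) : IsIntegral ℤ (e i) := by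
  refine ⟨Polynomial.X ^ 6 - 17 * Polynomial.X ^ 4 + 42 * Polynomial.X ^ 2 - 25, by monicity!, ?_⟩
  have := he.root i
  simp only [Polynomial.eval₂_sub, Polynomial.eval₂_add, Polynomial.eval₂_mul,
    Polynomial.eval₂_pow, Polynomial.eval₂_X, Polynomial.eval₂_ofNat]
  linarith

end NT5

open NT5

theorem t_NT5 : S_NT5 := by
  intro e he hfin hgal ⟨c, hc⟩ hperm
  by_contra hno
  push Not at hno
  have l0 := he.lo0
  have h0 := he.hi0
  have l1 := he.lo1
  have h1 := he.hi1
  have l2 := he.lo2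
  have h2 := he.hi2
  -- the orbit
  set X : Fin 3 → KK e := ![ee e 0, c (ee e 0), c (c (ee e 0))] with hX
  have X0 : X 0 = ee e 0 := rfl
  have X1 : X 1 = c (ee e 0) := rfl
  have X2 : X 2 = c (c (ee e 0)) := rfl
  have hX1 : X 1 = ee e 1 ∨ X 1 = - ee e 1 := hc 0
  have hX2 : X 2 = ee e 2 ∨ X 2 = - ee e 2 := by
    have h3 : c (ee e 1) = ee e 2 ∨ c (ee e 1) = - ee e 2 := hc 1
    have h4 : X 2 = c (X 1) := rfl
    rw [h4]
    rcases hX1 with h | h
    · rw [h]; exact h3
    · rw [h, map_neg]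
      rcases h3 with h5 | h5
      · right; rw [h5]
      · left; rw [h5, neg_neg]
  have hXs : ∀ s : Fin 3, X s = ee e s ∨ X s = - ee e s := by
    intro s
    fin_cases s
    · left; rfl
    · exact hX1
    · exact hX2
  have hXsq : ∀ s : Fin 3, ((X s : KK e) : ℝ) ^ 2 = (e s) ^ 2 := by
    intro s
    rcases hXs s with h | h
    · rw [h]; rfl
    · rw [h]
      have : ((- ee e s : KK e) : ℝ) = - e s := rfl
      rw [this, neg_sq]
  have hXinj : Function.Injective X := by
    intro i j hij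
    apply sq_inj he
    rw [← hXsq i, ← hXsq j, hij]
  have hA : ∀ g : KK e ≃ₐ[ℚ] KK e, ∃ s, g (ee e 0) = X s := by
    intro g
    obtain ⟨s, hs⟩ := hperm g
    refine ⟨s, ?_⟩
    have h3 : g (ee e 0) = X s ∨ g (ee e 0) = - X s := by
      have h4 := hs 0
      rw [zero_add] at h4
      rcases hXs s with h | h
      · rw [h]; exact h4
      · rw [h, neg_neg]; exact h4.symm
    rcases h3 with h | h
    · exact h
    · exfalso
      have hs3 : s = 0 ∨ s = 1 ∨ s = 2 := by fin_cases s <;> simp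
      rcases hs3 with rfl | rfl | rfl
      · exact hno g h
      · apply hno (c⁻¹ * g)
        rw [AlgEquiv.mul_apply, h, X1, map_neg]
        congr 1
        exact c.symm_apply_apply _
      · apply hno (c⁻¹ * (c⁻¹ * g))
        rw [AlgEquiv.mul_apply, AlgEquiv.mul_apply, h, X2, map_neg, map_neg]
        congr 1
        exact (congrArg c.symm (c.symm_apply_apply _)).trans (c.symm_apply_apply _)
  have hB : ∀ (g : KK e ≃ₐ[ℚ] KK e) (i : Fin 3), ∃ s, g (X i) = X s := by
    intro g i
    fin_cases i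
    · exact hA g
    · exact hA (g * c)
    · exact hA (g * (c * c))
  have ht : ∀ g : KK e ≃ₐ[ℚ] KK e, g (∑ i, X i) = ∑ i, X i := by
    intro g
    choose σ hσ using hB g
    have hσi : Function.Injective σ := by
      intro i j hij
      apply hXinj
      apply g.injective
      rw [hσ, hσ, hij]
    have hσb : Function.Bijective σ := Finite.injective_iff_bijective.1 hσi
    rw [map_sum, Finset.sum_congr rfl (fun i _ => hσ i)]
    exact hσb.sum_comp X
  rw [← IsGalois.mem_bot_iff_fixed, IntermediateField.mem_bot] at ht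
  obtain ⟨q, hq⟩ := ht
  have hq' : (q : ℝ) = (X 0 : ℝ) + (X 1 : ℝ) + (X 2 : ℝ) := by
    have h3 := congrArg (fun x : KK e => (x : ℝ)) hq
    rw [Fin.sum_univ_three] at h3
    simpa using h3
  have hint : IsIntegral ℤ (q : ℝ) := by
    rw [hq']
    have h3 : ∀ s, IsIntegral ℤ ((X s : KK e) : ℝ) := by
      intro s
      rcases hXs s with h | h
      · rw [h]; exact int_e he s
      · rw [h]
        have : ((- ee e s : KK e) : ℝ) = - e s := rfl
        rw [this]; exact (int_e he s).neg
    exact ((h3 0).add (h3 1)).add (h3 2)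
  have h5 : (q : ℝ) = algebraMap ℚ ℝ q := rfl
  rw [h5, isIntegral_algebraMap_iff (algebraMap ℚ ℝ).injective,
    IsIntegrallyClosed.isIntegral_iff] at hint
  obtain ⟨z, hz⟩ := hint
  have hz' : (z : ℝ) = (X 0 : ℝ) + (X 1 : ℝ) + (X 2 : ℝ) := by
    rw [← hq', ← hz]
    simp
  have x0 : ((X 0 : KK e) : ℝ) = e 0 := rfl
  have x1 : ((X 1 : KK e) : ℝ) = e 1 ∨ ((X 1 : KK e) : ℝ) = - e 1 := by
    rcases hX1 with h | h
    · left; rw [h]; rfl
    · right; rw [h]; rfl
  have x2 : ((X 2 : KK e) : ℝ) = e 2 ∨ ((X 2 : KK e) : ℝ) = - e 2 := by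
    rcases hX2 with h | h
    · left; rw [h]; rfl
    · right; rw [h]; rfl
  rw [x0] at hz'
  rcases x1 with x1 | x1 <;> rcases x2 with x2 | x2 <;> rw [x1, x2] at hz'
  · have b1 : (6 : ℝ) < z := by linarith
    have b2 : (z : ℝ) < 7 := by linarith
    have b1' : (6 : ℤ) < z := by exact_mod_cast b1
    have b2' : z < (7 : ℤ) := by exact_mod_cast b2
    omega
  · have b1 : (4 : ℝ) < z := by linarith
    have b2 : (z : ℝ) < 5 := by linarith
    have b1' : (4 : ℤ) < z := by exact_mod_cast b1
    have b2' : z < (5 : ℤ) := by exact_mod_cast b2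
    omega
  · have b1 : (3 : ℝ) < z := by linarith
    have b2 : (z : ℝ) < 4 := by linarith
    have b1' : (3 : ℤ) < z := by exact_mod_cast b1
    have b2' : z < (4 : ℤ) := by exact_mod_cast b2
    omega
  · have b1 : (1 : ℝ) < z := by linarith
    have b2 : (z : ℝ) < 2 := by linarith
    have b1' : (1 : ℤ) < z := by exact_mod_cast b1
    have b2' : z < (2 : ℤ) := by exact_mod_cast b2
    omega

end Pool.Agent.T2h75.CL
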