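import Pool.Agent.T2h75.CL.Stm

set_option autoImplicit false

namespace Pool.Agent.T2h75.CL

namespace NT6

theorem pos {e : Fin 3 → ℝ} (he : EData e) (i : Fin 3) : 0 < e i := by
  have l0 := he.lo0
  have l1 := he.lo1
  have l2 := he.lo2
  fin_cases i
  · show 0 < e 0; linarith
  · show 0 < e 1; linarith
  · show 0 < e 2; linarith

theorem inj {e : Fin 3 → ℝ} (he : EData e) {i j : Fin 3} (h3 : e i = e j) : i = j := by
  have l0 := he.lo0
  have h0 := he.hi0
  have l1 := he.lo1
  have h1 := he.hi1
  have l2 := he.lo2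
  have h2 := he.hi2
  have l01 : e 0 ≠ e 1 := by intro h; linarith
  have l02 : e 0 ≠ e 2 := by intro h; linarith
  have l12 : e 1 ≠ e 2 := by intro h; linarith
  fin_cases i <;> fin_cases j
  · rfl
  · exact absurd h3 l01
  · exact absurd h3 l02
  · exact absurd h3 l01.symm
  · rfl
  · exact absurd h3 l12
  · exact absurd h3 l02.symm
  · exact absurd h3 l12.symm
  · rfl

theorem ee_inj {e : Fin 3 → ℝ} (he : EData e) {i j : Fin 3} (h : ee e i = ee e j) : i = j :=
  inj he (congrArg (fun x : KK e => (x : ℝ)) h)

theorem ee_ne_neg {e : Fin 3 → ℝ} (he : EData e) (i j : Fin 3) : ee e i ≠ - ee e j := by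
  intro h
  have h1 : e i = - e j := congrArg (fun x : KK e => (x : ℝ)) h
  have := pos he i
  have := pos he j
  linarith

open Classical in
/-- the sign of `x` with respect to `ee i` -/
noncomputable def sg (e : Fin 3 → ℝ) (x : KK e) (i : Fin 3) : ℤ :=
  if x = ee e i then 1 else if x = - ee e i then -1 else 0

theorem sg_pos (e : Fin 3 → ℝ) (i : Fin 3) : sg e (ee e i) i = 1 := by
  unfold sg; rw [if_pos rfl]

theorem sg_neg {e : Fin 3 → ℝ} (he : EData e) (x : KK e) (i : Fin 3) :
    sg e (-x) i = - sg e x i := by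
  unfold sg
  by_cases h1 : x = ee e i
  · have h2 : -x ≠ ee e i := by
      rw [h1]; exact (ee_ne_neg he i i).symm
    rw [if_neg h2, if_pos (by rw [h1]), if_pos h1]
  · by_cases h2 : x = - ee e i
    · have h3 : -x = ee e i := by rw [h2, neg_neg]
      rw [if_pos h3, if_neg h1, if_pos h2, neg_neg]
    · have h3 : -x ≠ ee e i := by
        intro h; apply h2; rw [← h, neg_neg]
      have h4 : -x ≠ - ee e i := by
        intro h; exact h1 (neg_injective h)
      rw [if_neg h3, if_neg h4, if_neg h1, if_neg h2, neg_zero]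

theorem sg_ee {e : Fin 3 → ℝ} (he : EData e) (k i : Fin 3) :
    sg e (ee e k) i = if k = i then 1 else 0 := by
  by_cases h : k = i
  · rw [if_pos h, h, sg_pos]
  · rw [if_neg h]
    unfold sg
    rw [if_neg (fun h' => h (ee_inj he h')), if_neg (ee_ne_neg he k i)]

theorem sg_cases (e : Fin 3 → ℝ) (x : KK e) (i : Fin 3) :
    sg e x i = 1 ∨ sg e x i = -1 ∨ sg e x i = 0 := by
  unfold sg
  split_ifs <;> simp

theorem of_one {e : Fin 3 → ℝ} {x : KK e} {i : Fin 3} (h : sg e x i = 1) : x = ee e i := by
  by_contra hne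
  unfold sg at h
  rw [if_neg hne] at h
  by_cases h2 : x = - ee e i
  · rw [if_pos h2] at h; norm_num at h
  · rw [if_neg h2] at h; norm_num at h

theorem of_neg_one {e : Fin 3 → ℝ} {x : KK e} {i : Fin 3} (h : sg e x i = -1) :
    x = - ee e i := by
  by_contra hne
  unfold sg at h
  by_cases h2 : x = ee e i
  · rw [if_pos h2] at h; norm_num at h
  · rw [if_neg h2, if_neg hne] at h; norm_num at h

end NT6

open NT6

theorem t_NT6 : S_NT6 := by
  intro e he ⟨c, hc⟩ hperm ⟨g0, hg0⟩
  have hprod : ee e 0 * ee e 1 * ee e 2 = 5 := by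
    apply Subtype.ext
    exact he.prod
  have hne : ∀ i, ee e i ≠ 0 := by
    intro i h
    have h1 : e i = 0 := congrArg (fun x : KK e => (x : ℝ)) h
    have := pos he i
    linarith
  -- the diagonal elements
  have hD : ∀ i : Fin 3, ∃ δ : KK e ≃ₐ[ℚ] KK e, ∀ b, δ (ee e b) =
      if b = i then ee e b else - ee e b := by
    have step : ∀ i : Fin 3, (∃ δ : KK e ≃ₐ[ℚ] KK e, ∀ b, δ (ee e b) =
        if b = i then ee e b else - ee e b) → ∃ δ : KK e ≃ₐ[ℚ] KK e, ∀ b, δ (ee e b) =
        if b = i + 1 then ee e b else - ee e b := by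
      rintro i ⟨δ, hδ⟩
      refine ⟨c * δ * c⁻¹, ?_⟩
      intro b
      obtain ⟨b', rfl⟩ : ∃ b', b = b' + 1 := ⟨b - 1, by simp⟩
      have hci : ∀ y, c⁻¹ (c y) = y := fun y => c.symm_apply_apply y
      have h1 : (c * δ * c⁻¹) (ee e (b' + 1)) = c (δ (c⁻¹ (ee e (b' + 1)))) := rfl
      rw [h1]
      simp only [add_left_inj]
      rcases hc b' with h | h
      · have h2 : c⁻¹ (ee e (b' + 1)) = ee e b' := by rw [← h, hci]
        rw [h2, hδ b']
        split_ifs
        · exact h
        · rw [map_neg, h]
      · have h2 : c⁻¹ (ee e (b' + 1)) = - ee e b' := by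
          have h3 : ee e (b' + 1) = c (- ee e b') := by rw [map_neg, h, neg_neg]
          rw [h3, hci]
        rw [h2, map_neg, hδ b']
        split_ifs
        · rw [map_neg, h, neg_neg]
        · rw [neg_neg, h]
    have base : ∃ i : Fin 3, ∃ δ : KK e ≃ₐ[ℚ] KK e, ∀ b, δ (ee e b) =
        if b = i then ee e b else - ee e b := by
      obtain ⟨s, hs⟩ := hperm g0
      have hs0 : s = 0 := by
        have h1 := hs 0
        rw [zero_add, hg0] at h1
        rcases h1 with h1 | h1
        · exact absurd h1.symm (ee_ne_neg he s 0)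
        · exact (ee_inj he (neg_injective h1)).symm
      rw [hs0] at hs
      simp only [add_zero] at hs
      have h5 : g0 (ee e 0) * g0 (ee e 1) * g0 (ee e 2) = 5 := by
        rw [← map_mul, ← map_mul, hprod]
        exact map_ofNat g0 5
      rw [hg0] at h5
      have h50 : (5 : KK e) ≠ 0 := by
        rw [← hprod]; exact mul_ne_zero (mul_ne_zero (hne 0) (hne 1)) (hne 2)
      rcases hs 1 with h1 | h1 <;> rcases hs 2 with h2 | h2
      · exfalso
        rw [h1, h2, neg_mul, neg_mul, hprod] at h5
        have : (5 : KK e) + 5 = 0 := by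
          nth_rewrite 1 [← h5]
          ring
        have h6 : (5 : KK e) * 2 = 0 := by rw [← this]; ring
        rcases mul_eq_zero.1 h6 with h | h
        · exact h50 h
        · exact two_ne_zero h
      · refine ⟨1, g0, ?_⟩
        intro b
        fin_cases b
        · exact hg0
        · exact h1
        · exact h2
      · refine ⟨2, g0, ?_⟩
        intro b
        fin_cases b
        · exact hg0
        · exact h1
        · exact h2
      · exfalso
        rw [h1, h2] at h5
        have h7 : - ee e 0 * - ee e 1 * - ee e 2 = - (ee e 0 * ee e 1 * ee e 2) := by ring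
        rw [h7, hprod] at h5
        have : (5 : KK e) + 5 = 0 := by
          nth_rewrite 1 [← h5]
          ring
        have h6 : (5 : KK e) * 2 = 0 := by rw [← this]; ring
        rcases mul_eq_zero.1 h6 with h | h
        · exact h50 h
        · exact two_ne_zero h
    obtain ⟨i, hi⟩ := base
    have h1 := step i hi
    have h2 := step _ h1
    intro j
    have hall : ∀ i j : Fin 3, j = i ∨ j = i + 1 ∨ j = i + 1 + 1 := by decide
    have := hall i j
    rcases this with rfl | rfl | rfl
    · exact hi
    · exact h1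
    · exact h2
  -- rotations
  have hR : ∀ k : Fin 3, ∃ g : KK e ≃ₐ[ℚ] KK e, ∀ j, g (ee e j) = ee e (j + k) ∨
      g (ee e j) = - ee e (j + k) := by
    intro k
    have hk : k = 0 ∨ k = 1 ∨ k = 1 + 1 := by revert k; decide
    rcases hk with rfl | rfl | rfl
    · exact ⟨1, fun j => Or.inl (by rw [add_zero]; rfl)⟩
    · exact ⟨c, hc⟩
    · refine ⟨c * c, fun j => ?_⟩
      have h1 : (c * c) (ee e j) = c (c (ee e j)) := rfl
      rw [h1, ← add_assoc]
      rcases hc j with h | h
      · rw [h]; exact hc (j + 1)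
      · rw [h, map_neg]
        rcases hc (j + 1) with h' | h'
        · right; rw [h']
        · left; rw [h', neg_neg]
  refine ⟨fun g => Matrix.of fun i j => sg e (g (ee e j)) i, ⟨?_, ?_, ?_, ?_⟩, ?_, ?_, ?_, ?_⟩
  · intro g h
    ext i j
    rw [Matrix.mul_apply]
    simp only [Matrix.of_apply]
    have h1 : (g * h) (ee e j) = g (h (ee e j)) := rfl
    rw [h1]
    obtain ⟨s, hs⟩ := hperm h
    rcases hs j with h2 | h2
    · rw [h2]
      simp only [sg_ee he]
      rw [Finset.sum_eq_single (j + s)]
      · rw [if_pos rfl, mul_one]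
      · intro b _ hb
        rw [if_neg hb.symm, mul_zero]
      · intro hb
        exact absurd (Finset.mem_univ _) hb
    · rw [h2]
      simp only [sg_neg he, sg_ee he, map_neg]
      rw [Finset.sum_eq_single (j + s)]
      · rw [if_pos rfl, mul_neg, mul_one]
      · intro b _ hb
        rw [if_neg hb.symm, neg_zero, mul_zero]
      · intro hb
        exact absurd (Finset.mem_univ _) hb
  · ext i j
    simp only [Matrix.of_apply]
    have h1 : (1 : KK e ≃ₐ[ℚ] KK e) (ee e j) = ee e j := rfl
    rw [h1, sg_ee he, Matrix.one_apply]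
    by_cases h : i = j
    · rw [if_pos h, if_pos h.symm]
    · rw [if_neg h, if_neg (fun h' => h h'.symm)]
  · intro i
    obtain ⟨δ, hδ⟩ := hD i
    refine ⟨δ, fun a b => ?_⟩
    simp only [Matrix.of_apply]
    rw [hδ b]
    by_cases hab : a = b
    · subst hab
      rw [if_pos rfl]
      by_cases hai : a = i
      · rw [if_pos hai, if_pos hai, sg_pos]
      · rw [if_neg hai, if_neg hai, sg_neg he, sg_pos]
    · rw [if_neg hab]
      by_cases hbi : b = i
      · rw [if_pos hbi, sg_ee he, if_neg (fun h => hab h.symm)]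
      · rw [if_neg hbi, sg_neg he, sg_ee he, if_neg (fun h => hab h.symm), neg_zero]
  · intro i l
    obtain ⟨g, hg⟩ := hR (i - l)
    refine ⟨g, sg e (g (ee e l)) i, ?_, ?_⟩
    · have h1 := hg l
      rw [add_sub_cancel] at h1
      rcases h1 with h | h
      · left; rw [h, sg_pos]
      · right; rw [h, sg_neg he, sg_pos]
    · intro m
      simp only [Matrix.of_apply]
      by_cases hm : m = l
      · rw [if_pos hm, hm]
      · rw [if_neg hm]
        have hne' : ¬ (m + (i - l) = i) := by
          intro h
          apply hm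
          have h2 : m + (i - l) = l + (i - l) := by rw [h, add_sub_cancel]
          exact add_right_cancel h2
        rcases hg m with h | h
        · rw [h, sg_ee he, if_neg hne']
        · rw [h, sg_neg he, sg_ee he, if_neg hne', neg_zero]
  · intro g i j
    exact sg_cases e _ _
  · intro g i j h
    exact of_one h
  · intro g i j h
    exact of_neg_one h
  · intro g j
    obtain ⟨s, hs⟩ := hperm g
    refine ⟨j + s, ?_, ?_⟩
    · simp only [Matrix.of_apply]
      rcases hs j with h | h
      · rw [h, sg_pos]; norm_num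
      · rw [h, sg_neg he, sg_pos]; norm_num
    · intro i' hi'
      simp only [Matrix.of_apply]
      rcases hs j with h | h
      · rw [h, sg_ee he, if_neg hi'.symm]
      · rw [h, sg_neg he, sg_ee he, if_neg hi'.symm, neg_zero]

end Pool.Agent.T2h75.CL
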