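import Pool.Agent.T2h75.CL.Stm

set_option autoImplicit false

namespace Pool.Agent.T2h75.CL

namespace NT7

theorem key {p q lo hi : ℝ} (hq : q ≠ 0) (h1 : lo * |q| < |p|) (h2 : |p| < hi * |q|) :
    lo < |p / q| ∧ |p / q| < hi := by
  rw [abs_div]
  have hq' := abs_pos.2 hq
  exact ⟨(lt_div_iff₀ hq').2 h1, (div_lt_iff₀ hq').2 h2⟩

/-- positive denominator -/
theorem keyp {p q lo hi : ℝ} (hq : 0 < q) (hp : 0 < p) (h1 : lo * q < p) (h2 : p < hi * q) :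
    lo < |p / q| ∧ |p / q| < hi := by
  apply key hq.ne'
  · rwa [abs_of_pos hq, abs_of_pos hp]
  · rwa [abs_of_pos hq, abs_of_pos hp]

/-- negative denominator -/
theorem keyn {p q lo hi : ℝ} (hq : q < 0) (hp : 0 < p) (h1 : lo * (-q) < p) (h2 : p < hi * (-q)) :
    lo < |p / q| ∧ |p / q| < hi := by
  apply key hq.ne
  · rwa [abs_of_neg hq, abs_of_pos hp]
  · rwa [abs_of_neg hq, abs_of_pos hp]

theorem logs {a b c A B C : ℝ} (ha : 1 < a) (hb : 1 < b) (hc : C < c) (haA : a < A) (hbB : b < B)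
    (h : A * B < C) : ‖Real.log a‖ + ‖Real.log b‖ < ‖Real.log c‖ := by
  have hAB : a * b < A * B := by nlinarith
  have h1 : 1 < c := by nlinarith
  rw [Real.norm_of_nonneg (Real.log_nonneg ha.le), Real.norm_of_nonneg (Real.log_nonneg hb.le),
    Real.norm_of_nonneg (Real.log_nonneg h1.le), ← Real.log_mul (by linarith) (by linarith)]
  apply Real.log_lt_log (by nlinarith)
  linarith

end NT7

open NT7

theorem t_NT7 : S_NT7 := by
  intro e he
  have l0 := he.lo0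
  have h0 := he.hi0
  have l1 := he.lo1
  have h1 := he.hi1
  have l2 := he.lo2
  have h2 := he.hi2
  have m0 : ((mm (Fin.castSucc 0) : ℚ) : ℝ) = 4 := by simp [mm]
  have m1 : ((mm (Fin.castSucc 1) : ℚ) : ℝ) = 3 / 2 := by
    have : mm (Fin.castSucc 1) = 3 / 2 := rfl
    rw [this]; norm_num
  have m2 : ((mm (Fin.castSucc 2) : ℚ) : ℝ) = 1 := by
    have : mm (Fin.castSucc 2) = 1 := rfl
    rw [this]; norm_num
  have a00 : 32 < |(4 + e 0) / (4 - e 0)| ∧ |(4 + e 0) / (4 - e 0)| < 34 :=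
    keyp (by linarith) (by linarith) (by linarith) (by linarith)
  have a01 : 2 < |(4 + e 1) / (4 - e 1)| ∧ |(4 + e 1) / (4 - e 1)| < 21 / 10 :=
    keyp (by linarith) (by linarith) (by linarith) (by linarith)
  have a02 : 16 / 10 < |(4 + e 2) / (4 - e 2)| ∧ |(4 + e 2) / (4 - e 2)| < 17 / 10 :=
    keyp (by linarith) (by linarith) (by linarith) (by linarith)
  have a10 : 2 < |(3 / 2 + e 0) / (3 / 2 - e 0)| ∧ |(3 / 2 + e 0) / (3 / 2 - e 0)| < 24 / 10 :=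
    keyn (by linarith) (by linarith) (by linarith) (by linarith)
  have a11 : 25 < |(3 / 2 + e 1) / (3 / 2 - e 1)| ∧ |(3 / 2 + e 1) / (3 / 2 - e 1)| < 26 :=
    keyp (by linarith) (by linarith) (by linarith) (by linarith)
  have a12 : 4 < |(3 / 2 + e 2) / (3 / 2 - e 2)| ∧ |(3 / 2 + e 2) / (3 / 2 - e 2)| < 46 / 10 :=
    keyp (by linarith) (by linarith) (by linarith) (by linarith)
  have a20 : 17 / 10 < |(1 + e 0) / (1 - e 0)| ∧ |(1 + e 0) / (1 - e 0)| < 18 / 10 :=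
    keyn (by linarith) (by linarith) (by linarith) (by linarith)
  have a21 : 6 < |(1 + e 1) / (1 - e 1)| ∧ |(1 + e 1) / (1 - e 1)| < 62 / 10 :=
    keyn (by linarith) (by linarith) (by linarith) (by linarith)
  have a22 : 45 < |(1 + e 2) / (1 - e 2)| ∧ |(1 + e 2) / (1 - e 2)| < 48 :=
    keyp (by linarith) (by linarith) (by linarith) (by linarith)
  apply det_ne_zero_of_sum_row_lt_diag
  intro k
  have hu : ∀ k : Fin 3, (Finset.univ.erase k : Finset (Fin 3)) = {k + 1, k + 2} := by decide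
  rw [hu k, Finset.sum_pair (by fin_cases k <;> decide)]
  simp only [Matrix.of_apply, PhR]
  fin_cases k
  · show ‖Real.log |(((mm (Fin.castSucc 0) : ℚ) : ℝ) + e 1) / (((mm (Fin.castSucc 0) : ℚ) : ℝ) - e 1)|‖ +
      ‖Real.log |(((mm (Fin.castSucc 0) : ℚ) : ℝ) + e 2) / (((mm (Fin.castSucc 0) : ℚ) : ℝ) - e 2)|‖ <
      ‖Real.log |(((mm (Fin.castSucc 0) : ℚ) : ℝ) + e 0) / (((mm (Fin.castSucc 0) : ℚ) : ℝ) - e 0)|‖
    rw [m0]
    exact logs (by linarith [a01.1]) (by linarith [a02.1]) a00.1 a01.2 a02.2 (by norm_num)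
  · show ‖Real.log |(((mm (Fin.castSucc 1) : ℚ) : ℝ) + e 2) / (((mm (Fin.castSucc 1) : ℚ) : ℝ) - e 2)|‖ +
      ‖Real.log |(((mm (Fin.castSucc 1) : ℚ) : ℝ) + e 0) / (((mm (Fin.castSucc 1) : ℚ) : ℝ) - e 0)|‖ <
      ‖Real.log |(((mm (Fin.castSucc 1) : ℚ) : ℝ) + e 1) / (((mm (Fin.castSucc 1) : ℚ) : ℝ) - e 1)|‖
    rw [m1]
    exact logs (by linarith [a12.1]) (by linarith [a10.1]) a11.1 a12.2 a10.2 (by norm_num)
  · show ‖Real.log |(((mm (Fin.castSucc 2) : ℚ) : ℝ) + e 0) / (((mm (Fin.castSucc 2) : ℚ) : ℝ) - e 0)|‖ +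
      ‖Real.log |(((mm (Fin.castSucc 2) : ℚ) : ℝ) + e 1) / (((mm (Fin.castSucc 2) : ℚ) : ℝ) - e 1)|‖ <
      ‖Real.log |(((mm (Fin.castSucc 2) : ℚ) : ℝ) + e 2) / (((mm (Fin.castSucc 2) : ℚ) : ℝ) - e 2)|‖
    rw [m2]
    exact logs (by linarith [a20.1]) (by linarith [a21.1]) a22.1 a20.2 a21.2 (by norm_num)

end Pool.Agent.T2h75.CL
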