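import Pool.Agent.T2h75.CL.Stm

set_option autoImplicit false

namespace Pool.Agent.T2h75.CL

namespace NT8

/-- integral up to powers of `2 * 17 * 23 * 331` -/
def Q (x : ℝ) : Prop := ∃ a : ℕ, IsIntegral ℤ ((258842 : ℝ) ^ a * x)

theorem int_nat (n : ℕ) : IsIntegral ℤ (n : ℝ) := by
  have h : IsIntegral ℤ (algebraMap ℤ ℝ (n : ℤ)) := isIntegral_algebraMap
  simpa using h

theorem intN : IsIntegral ℤ (258842 : ℝ) := by
  have := int_nat 258842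
  exact_mod_cast this

theorem Q_of {x : ℝ} (h : IsIntegral ℤ x) : Q x := ⟨0, by simpa using h⟩

theorem Q_mul {x y : ℝ} (hx : Q x) (hy : Q y) : Q (x * y) := by
  obtain ⟨a, ha⟩ := hx
  obtain ⟨b, hb⟩ := hy
  refine ⟨a + b, ?_⟩
  have : (258842 : ℝ) ^ (a + b) * (x * y) = ((258842 : ℝ) ^ a * x) * ((258842 : ℝ) ^ b * y) := by
    ring
  rw [this]
  exact ha.mul hb

theorem Q_add {x y : ℝ} (hx : Q x) (hy : Q y) : Q (x + y) := by
  obtain ⟨a, ha⟩ := hx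
  obtain ⟨b, hb⟩ := hy
  refine ⟨a + b, ?_⟩
  have : (258842 : ℝ) ^ (a + b) * (x + y) =
      (258842 : ℝ) ^ b * ((258842 : ℝ) ^ a * x) + (258842 : ℝ) ^ a * ((258842 : ℝ) ^ b * y) := by
    ring
  rw [this]
  exact ((intN.pow b).mul ha).add ((intN.pow a).mul hb)

theorem Q_neg {x : ℝ} (hx : Q x) : Q (-x) := by
  obtain ⟨a, ha⟩ := hx
  refine ⟨a, ?_⟩
  rw [mul_neg]
  exact ha.neg

theorem Q_sub {x y : ℝ} (hx : Q x) (hy : Q y) : Q (x - y) := by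
  rw [sub_eq_add_neg]
  exact Q_add hx (Q_neg hy)

theorem Q_abs {x : ℝ} (hx : Q x) : Q |x| := by
  rcases abs_choice x with h | h
  · rw [h]; exact hx
  · rw [h]; exact Q_neg hx

theorem Q_of_abs {x : ℝ} (hx : Q |x|) : Q x := by
  rcases abs_choice x with h | h
  · rwa [h] at hx
  · rw [h] at hx
    have := Q_neg hx
    rwa [neg_neg] at this

theorem Q_pow {x : ℝ} (hx : Q x) (n : ℕ) : Q (x ^ n) := by
  induction n with
  | zero => rw [pow_zero]; exact Q_of isIntegral_one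
  | succ n ih => rw [pow_succ]; exact Q_mul ih hx

theorem Q_zpow {x : ℝ} (hx : Q x) (hx' : Q x⁻¹) (n : ℤ) : Q (x ^ n) := by
  rcases n with n | n
  · rw [Int.ofNat_eq_natCast, zpow_natCast]; exact Q_pow hx n
  · rw [zpow_negSucc, ← inv_pow]; exact Q_pow hx' _

theorem Q_of_pow {x : ℝ} {n : ℕ} (hn : 0 < n) (h : Q (x ^ n)) : Q x := by
  obtain ⟨a, ha⟩ := h
  refine ⟨a, ?_⟩
  apply IsIntegral.of_pow hn
  obtain ⟨k, rfl⟩ : ∃ k, n = k + 1 := ⟨n - 1, by omega⟩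
  have : ((258842 : ℝ) ^ a * x) ^ (k + 1) =
      ((258842 : ℝ) ^ a) ^ k * ((258842 : ℝ) ^ a * x ^ (k + 1)) := by
    rw [mul_pow]; ring
  rw [this]
  exact ((intN.pow a).pow k).mul ha

theorem Q_nat (n : ℕ) : Q (n : ℝ) := Q_of (int_nat n)

theorem Q_half : Q (1 / 2 : ℝ) := by
  refine ⟨1, ?_⟩
  have : (258842 : ℝ) ^ 1 * (1 / 2) = ((129421 : ℕ) : ℝ) := by norm_num
  rw [this]; exact int_nat _

theorem Q_391 : Q (1 / 391 : ℝ) := by
  refine ⟨1, ?_⟩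
  have : (258842 : ℝ) ^ 1 * (1 / 391) = ((662 : ℕ) : ℝ) := by norm_num
  rw [this]; exact int_nat _

theorem Q_331 : Q (1 / 331 : ℝ) := by
  refine ⟨1, ?_⟩
  have : (258842 : ℝ) ^ 1 * (1 / 331) = ((782 : ℕ) : ℝ) := by norm_num
  rw [this]; exact int_nat _

theorem Q_ratio {m x y z P : ℝ} (hm : Q m) (hx : Q x) (hy : Q y) (hz : Q z) (hP : Q (1 / P))
    (hP0 : P ≠ 0) (h : (m ^ 2 - x ^ 2) * (m ^ 2 - y ^ 2) * (m ^ 2 - z ^ 2) = P) :
    (m + x ≠ 0 ∧ m - x ≠ 0) ∧ Q ((m + x) / (m - x)) ∧ Q ((m + x) / (m - x))⁻¹ := by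
  have h0 : (m + x) * (m - x) ≠ 0 := by
    intro h1
    apply hP0
    rw [← h]
    have : m ^ 2 - x ^ 2 = (m + x) * (m - x) := by ring
    rw [this, h1]; ring
  have h1 : m + x ≠ 0 := left_ne_zero_of_mul h0
  have h2 : m - x ≠ 0 := right_ne_zero_of_mul h0
  refine ⟨⟨h1, h2⟩, ?_, ?_⟩
  · have e1 : (m + x) / (m - x) = (m + x) * (m + x) * ((m ^ 2 - y ^ 2) * (m ^ 2 - z ^ 2)) * (1 / P) := by
      rw [mul_one_div, div_eq_div_iff h2 hP0, ← h]
      ring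
    rw [e1]
    exact Q_mul (Q_mul (Q_mul (Q_add hm hx) (Q_add hm hx))
      (Q_mul (Q_sub (Q_pow hm 2) (Q_pow hy 2)) (Q_sub (Q_pow hm 2) (Q_pow hz 2)))) hP
  · have e1 : ((m + x) / (m - x))⁻¹ = (m - x) * (m - x) * ((m ^ 2 - y ^ 2) * (m ^ 2 - z ^ 2)) * (1 / P) := by
      rw [inv_div, mul_one_div, div_eq_div_iff h1 hP0, ← h]
      ring
    rw [e1]
    exact Q_mul (Q_mul (Q_mul (Q_sub hm hx) (Q_sub hm hx))
      (Q_mul (Q_sub (Q_pow hm 2) (Q_pow hy 2)) (Q_sub (Q_pow hm 2) (Q_pow hz 2)))) hP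

end NT8

open NT8

theorem t_NT8 : S_NT8 := by
  intro e he m n hm hlog
  have l0 := he.lo0
  have h0 := he.hi0
  have l1 := he.lo1
  have h1 := he.hi1
  have l2 := he.lo2
  have h2 := he.hi2
  have hs1 := he.s1
  have hs2 := he.s2
  have hpr := he.prod
  have hs3 : (e 0)^2 * (e 1)^2 * (e 2)^2 = 25 := by
    have : (e 0)^2 * (e 1)^2 * (e 2)^2 = (e 0 * e 1 * e 2)^2 := by ring
    rw [this, hpr]; norm_num
  -- the cubic
  have hcub : ∀ M : ℝ, (M - (e 0)^2) * (M - (e 1)^2) * (M - (e 2)^2) = M^3 - 17 * M^2 + 42 * M - 25 := by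
    intro M
    linear_combination (-M^2) * hs1 + M * hs2 - hs3
  have hint : ∀ i, Q (e i) := by
    intro i
    apply Q_of
    refine ⟨Polynomial.X ^ 6 - 17 * Polynomial.X ^ 4 + 42 * Polynomial.X ^ 2 - 25, by monicity!, ?_⟩
    have := he.root i
    simp only [Polynomial.eval₂_sub, Polynomial.eval₂_add, Polynomial.eval₂_mul,
      Polynomial.eval₂_pow, Polynomial.eval₂_X, Polynomial.eval₂_ofNat]
    linarith
  -- ratio statement for all three `j`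
  have hrat : ∀ (k : Fin 3) (j : Fin 3),
      (((mm (Fin.castSucc k) : ℚ) : ℝ) + e j ≠ 0 ∧ ((mm (Fin.castSucc k) : ℚ) : ℝ) - e j ≠ 0) ∧
      Q ((((mm (Fin.castSucc k) : ℚ) : ℝ) + e j) / (((mm (Fin.castSucc k) : ℚ) : ℝ) - e j)) ∧
      Q ((((mm (Fin.castSucc k) : ℚ) : ℝ) + e j) / (((mm (Fin.castSucc k) : ℚ) : ℝ) - e j))⁻¹ := by
    intro k j
    obtain ⟨P, hP0, hPQ, hmQ, hP⟩ : ∃ P : ℝ, P ≠ 0 ∧ Q (1 / P) ∧ Q ((mm (Fin.castSucc k) : ℚ) : ℝ) ∧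
        (((mm (Fin.castSucc k) : ℚ) : ℝ)^2)^3 - 17 * (((mm (Fin.castSucc k) : ℚ) : ℝ)^2)^2 +
          42 * ((mm (Fin.castSucc k) : ℚ) : ℝ)^2 - 25 = P := by
      fin_cases k
      · have m0 : ((mm (Fin.castSucc 0) : ℚ) : ℝ) = ((4 : ℕ) : ℝ) := by simp [mm]
        refine ⟨391, by norm_num, Q_391, ?_, ?_⟩
        · show Q ((mm (Fin.castSucc 0) : ℚ) : ℝ)
          rw [m0]; exact Q_nat 4
        · show (((mm (Fin.castSucc 0) : ℚ) : ℝ)^2)^3 - 17 * (((mm (Fin.castSucc 0) : ℚ) : ℝ)^2)^2 +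
            42 * ((mm (Fin.castSucc 0) : ℚ) : ℝ)^2 - 25 = 391
          rw [m0]; norm_num
      · have m1 : ((mm (Fin.castSucc 1) : ℚ) : ℝ) = 3 / 2 := by
          have : mm (Fin.castSucc 1) = 3 / 2 := rfl
          rw [this]; norm_num
        refine ⟨- 331 / 64, by norm_num, ?_, ?_, ?_⟩
        · have : (1 / (- 331 / 64) : ℝ) = - (((64 : ℕ) : ℝ) * (1 / 331)) := by norm_num
          rw [this]; exact Q_neg (Q_mul (Q_nat 64) Q_331)
        · show Q ((mm (Fin.castSucc 1) : ℚ) : ℝ)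
          rw [m1]
          have : (3 / 2 : ℝ) = ((3 : ℕ) : ℝ) * (1 / 2) := by norm_num
          rw [this]; exact Q_mul (Q_nat 3) Q_half
        · show (((mm (Fin.castSucc 1) : ℚ) : ℝ)^2)^3 - 17 * (((mm (Fin.castSucc 1) : ℚ) : ℝ)^2)^2 +
            42 * ((mm (Fin.castSucc 1) : ℚ) : ℝ)^2 - 25 = - 331 / 64
          rw [m1]; norm_num
      · have m2 : ((mm (Fin.castSucc 2) : ℚ) : ℝ) = ((1 : ℕ) : ℝ) := by
          have : mm (Fin.castSucc 2) = 1 := rfl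
          rw [this]; norm_num
        refine ⟨1, by norm_num, ?_, ?_, ?_⟩
        · have : (1 / 1 : ℝ) = ((1 : ℕ) : ℝ) := by norm_num
          rw [this]; exact Q_nat 1
        · show Q ((mm (Fin.castSucc 2) : ℚ) : ℝ)
          rw [m2]; exact Q_nat 1
        · show (((mm (Fin.castSucc 2) : ℚ) : ℝ)^2)^3 - 17 * (((mm (Fin.castSucc 2) : ℚ) : ℝ)^2)^2 +
            42 * ((mm (Fin.castSucc 2) : ℚ) : ℝ)^2 - 25 = 1
          rw [m2]; norm_num
    have hc := hcub (((mm (Fin.castSucc k) : ℚ) : ℝ)^2)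
    rw [hP] at hc
    have q0 := Q_ratio (y := e 1) (z := e 2) hmQ (hint 0) (hint 1) (hint 2) hPQ hP0 hc
    have q1 := Q_ratio (y := e 0) (z := e 2) hmQ (hint 1) (hint 0) (hint 2) hPQ hP0
        (by rw [← hc]; ring)
    have q2 := Q_ratio (y := e 0) (z := e 1) hmQ (hint 2) (hint 0) (hint 1) hPQ hP0
        (by rw [← hc]; ring)
    fin_cases j
    · exact q0
    · exact q1
    · exact q2
  -- the fourth number
  have m3 : ((mm 3 : ℚ) : ℝ) = 2 := by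
    have : mm 3 = 2 := rfl
    rw [this]; norm_num
  have hne3 : ∀ j, 2 + e j ≠ 0 ∧ 2 - e j ≠ 0 := by
    intro j
    fin_cases j
    · exact ⟨by show 2 + e 0 ≠ 0; intro h; linarith, by show 2 - e 0 ≠ 0; intro h; linarith⟩
    · exact ⟨by show 2 + e 1 ≠ 0; intro h; linarith, by show 2 - e 1 ≠ 0; intro h; linarith⟩
    · exact ⟨by show 2 + e 2 ≠ 0; intro h; linarith, by show 2 - e 2 ≠ 0; intro h; linarith⟩
  have hQ3 : ∀ j, Q ((2 + e j) / (2 - e j)) ∧ Q ((2 + e j) / (2 - e j))⁻¹ := by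
    intro j
    have hw : ∀ k : Fin 3, 0 < |(((mm (Fin.castSucc k) : ℚ) : ℝ) + e j) /
        (((mm (Fin.castSucc k) : ℚ) : ℝ) - e j)| := by
      intro k
      obtain ⟨⟨g1, g2⟩, -⟩ := hrat k j
      exact abs_pos.2 (div_ne_zero g1 g2)
    have hw3 : 0 < |(2 + e j) / (2 - e j)| := abs_pos.2 (div_ne_zero (hne3 j).1 (hne3 j).2)
    have e1 := hlog j
    unfold PhR at e1
    rw [m3, ← Real.log_zpow] at e1
    have e2 : ∑ k : Fin 3, (n k : ℝ) * Real.log |(((mm (Fin.castSucc k) : ℚ) : ℝ) + e j) /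
        (((mm (Fin.castSucc k) : ℚ) : ℝ) - e j)| =
        Real.log (∏ k : Fin 3, |(((mm (Fin.castSucc k) : ℚ) : ℝ) + e j) /
        (((mm (Fin.castSucc k) : ℚ) : ℝ) - e j)| ^ (n k)) := by
      rw [Real.log_prod (fun k _ => (zpow_pos (hw k) _).ne')]
      exact Finset.sum_congr rfl fun k _ => by rw [Real.log_zpow]
    rw [e2] at e1
    have e3 : |(2 + e j) / (2 - e j)| ^ m = ∏ k : Fin 3, |(((mm (Fin.castSucc k) : ℚ) : ℝ) + e j) /
        (((mm (Fin.castSucc k) : ℚ) : ℝ) - e j)| ^ (n k) :=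
      Real.log_injOn_pos (zpow_pos hw3 _) (Finset.prod_pos fun k _ => zpow_pos (hw k) _) e1
    have hQa : ∀ k : Fin 3, Q |(((mm (Fin.castSucc k) : ℚ) : ℝ) + e j) /
        (((mm (Fin.castSucc k) : ℚ) : ℝ) - e j)| ∧ Q |(((mm (Fin.castSucc k) : ℚ) : ℝ) + e j) /
        (((mm (Fin.castSucc k) : ℚ) : ℝ) - e j)|⁻¹ := by
      intro k
      obtain ⟨-, g1, g2⟩ := hrat k j
      refine ⟨Q_abs g1, ?_⟩
      rw [← abs_inv]
      exact Q_abs g2
    have q1 : Q (|(2 + e j) / (2 - e j)| ^ m) := by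
      rw [e3, Fin.prod_univ_three]
      exact Q_mul (Q_mul (Q_zpow (hQa 0).1 (hQa 0).2 _) (Q_zpow (hQa 1).1 (hQa 1).2 _))
        (Q_zpow (hQa 2).1 (hQa 2).2 _)
    have q2 : Q (|(2 + e j) / (2 - e j)| ^ (-m)) := by
      rw [zpow_neg, e3, Fin.prod_univ_three, mul_inv, mul_inv, ← zpow_neg, ← zpow_neg, ← zpow_neg]
      exact Q_mul (Q_mul (Q_zpow (hQa 0).1 (hQa 0).2 _) (Q_zpow (hQa 1).1 (hQa 1).2 _))
        (Q_zpow (hQa 2).1 (hQa 2).2 _)
    have hma : 0 < m.natAbs := Int.natAbs_pos.2 hm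
    have q3 : Q (|(2 + e j) / (2 - e j)| ^ m.natAbs) ∧
        Q ((|(2 + e j) / (2 - e j)|⁻¹) ^ m.natAbs) := by
      rw [inv_pow, ← zpow_natCast, ← zpow_neg]
      rcases Int.natAbs_eq m with h | h
      · rw [← h]; exact ⟨q1, q2⟩
      · have h' : (m.natAbs : ℤ) = -m := by omega
        rw [h', neg_neg]; exact ⟨q2, q1⟩
    refine ⟨Q_of_abs (Q_of_pow hma q3.1), Q_of_abs ?_⟩
    rw [abs_inv]
    exact Q_of_pow hma q3.2
  have hsum : ((2 + e 0) / (2 - e 0) + ((2 + e 0) / (2 - e 0))⁻¹) +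
      ((2 + e 1) / (2 - e 1) + ((2 + e 1) / (2 - e 1))⁻¹) +
      ((2 + e 2) / (2 - e 2) + ((2 + e 2) / (2 - e 2))⁻¹) = 346 / 65 := by
    have hc := hcub 4
    norm_num at hc
    have g : ∀ j, (2 + e j) / (2 - e j) + ((2 + e j) / (2 - e j))⁻¹ = 16 / (4 - (e j)^2) - 2 := by
      intro j
      obtain ⟨g1, g2⟩ := hne3 j
      have g3 : 4 - (e j)^2 ≠ 0 := by
        have : 4 - (e j)^2 = (2 + e j) * (2 - e j) := by ring
        rw [this]; exact mul_ne_zero g1 g2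
      rw [inv_div]
      field_simp
      ring
    have gn : ∀ j, 4 - (e j)^2 ≠ 0 := by
      intro j
      obtain ⟨g1, g2⟩ := hne3 j
      have : 4 - (e j)^2 = (2 + e j) * (2 - e j) := by ring
      rw [this]; exact mul_ne_zero g1 g2
    rw [g 0, g 1, g 2]
    have hi : 1 / (4 - (e 0)^2) + 1 / (4 - (e 1)^2) + 1 / (4 - (e 2)^2) = 46 / 65 := by
      have k1 : (4 - (e 1)^2) * (4 - (e 2)^2) + (4 - (e 0)^2) * (4 - (e 2)^2) +
          (4 - (e 0)^2) * (4 - (e 1)^2) = -46 := by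
        linear_combination (-8) * hs1 + hs2
      have k2 : 1 / (4 - (e 0)^2) + 1 / (4 - (e 1)^2) + 1 / (4 - (e 2)^2) =
          ((4 - (e 1)^2) * (4 - (e 2)^2) + (4 - (e 0)^2) * (4 - (e 2)^2) +
          (4 - (e 0)^2) * (4 - (e 1)^2)) / ((4 - (e 0)^2) * (4 - (e 1)^2) * (4 - (e 2)^2)) := by
        have n0 := gn 0
        have n1 := gn 1
        have n2 := gn 2
        field_simp
      rw [k2, k1, hc]
      norm_num
    linear_combination 16 * hi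
  have hQs : Q (346 / 65 : ℝ) := by
    rw [← hsum]
    exact Q_add (Q_add (Q_add (hQ3 0).1 (hQ3 0).2) (Q_add (hQ3 1).1 (hQ3 1).2))
      (Q_add (hQ3 2).1 (hQ3 2).2)
  obtain ⟨a, ha⟩ := hQs
  have h5 : ((258842 : ℝ) ^ a * (346 / 65)) = algebraMap ℚ ℝ ((258842 : ℚ) ^ a * (346 / 65)) := by
    simp
  rw [h5, isIntegral_algebraMap_iff (algebraMap ℚ ℝ).injective,
    IsIntegrallyClosed.isIntegral_iff] at ha
  obtain ⟨t, ht⟩ := ha
  have h6 : (t : ℚ) * 65 = (258842 : ℚ) ^ a * 346 := by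
    have : (algebraMap ℤ ℚ t) = (t : ℚ) := rfl
    rw [this] at ht
    rw [ht]
    ring
  have h7 : t * 65 = (258842 : ℤ) ^ a * 346 := by exact_mod_cast h6
  have h8 : (13 : ℤ) ∣ (258842 : ℤ) ^ a * 346 := ⟨t * 5, by rw [← h7]; ring⟩
  have hp13 : Prime (13 : ℤ) := by norm_num
  rcases hp13.dvd_or_dvd h8 with h | h
  · have := hp13.dvd_of_dvd_pow h
    omega
  · omega

end Pool.Agent.T2h75.CL
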