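import Pool.Agent.T2h75.CL.Stm

/-! # P1: exponential sums -/

set_option autoImplicit false

namespace Pool.Agent.T2h75.CL

open scoped BigOperators Matrix

/-- the character `t ↦ exp (t r)` of the additive group -/
noncomputable def p1chi (r : ℝ) : Multiplicative ℝ →* ℝ where
  toFun t := Real.exp (t.toAdd * r)
  map_one' := by simp
  map_mul' s t := by
    rw [toAdd_mul, add_mul, Real.exp_add]

theorem p1chi_inj : Function.Injective p1chi := by
  intro r r' h
  have h1 := DFunLike.congr_fun h (Multiplicative.ofAdd (1 : ℝ))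
  have h2 : Real.exp (1 * r) = Real.exp (1 * r') := h1
  simpa using h2

theorem t_P1 : S_P1 := by
  classical
  intro β s c a h r
  have hli : LinearIndependent ℝ (fun r : ℝ => (p1chi r : Multiplicative ℝ → ℝ)) :=
    (linearIndependent_monoidHom (Multiplicative ℝ) ℝ).comp p1chi p1chi_inj
  rw [linearIndependent_iff'] at hli
  have h1 := hli (s.image a) (fun r => ∑ i ∈ s with a i = r, c i) ?_
  · by_cases hr : r ∈ s.image a
    · exact h1 r hr
    · apply Finset.sum_eq_zero
      intro i hi
      rw [Finset.mem_filter] at hi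
      exact absurd (Finset.mem_image.2 ⟨i, hi.1, hi.2⟩) hr
  · funext t
    rw [Finset.sum_apply, Pi.zero_apply, ← h t.toAdd,
      ← Finset.sum_fiberwise_of_maps_to (s := s) (t := s.image a) (g := a)
        (fun i hi => Finset.mem_image_of_mem a hi)]
    refine Finset.sum_congr rfl fun x _ => ?_
    rw [Pi.smul_apply, smul_eq_mul, Finset.sum_mul]
    refine Finset.sum_congr rfl fun i hi => ?_
    rw [(Finset.mem_filter.1 hi).2]
    rfl

end Pool.Agent.T2h75.CL
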