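import Pool.Agent.T2h75.CL.Stm

/-! # P2: the dual basis of a Galois extension -/

set_option autoImplicit false

namespace Pool.Agent.T2h75.CL

open scoped BigOperators Matrix

theorem t_P2 : S_P2 := by
  classical
  intro K _ _ _ n b
  have hnd := traceForm_nondegenerate ℚ K
  have h1 : ∀ i j, ∑ g : K ≃ₐ[ℚ] K, g ((Algebra.traceForm ℚ K).dualBasis hnd b i) * g (b j) =
      if i = j then 1 else 0 := by
    intro i j
    have h2 := LinearMap.BilinForm.apply_dualBasis_left (B := Algebra.traceForm ℚ K) hnd b i j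
    rw [Algebra.traceForm_apply] at h2
    have h3 := trace_eq_sum_automorphisms (K := ℚ) (L := K)
      ((Algebra.traceForm ℚ K).dualBasis hnd b i * b j)
    rw [h2] at h3
    rw [Finset.sum_congr rfl fun g _ => (map_mul g _ _).symm, ← h3]
    by_cases h : i = j
    · rw [if_pos h, if_pos h.symm, map_one]
    · rw [if_neg h, if_neg (fun e => h e.symm), map_zero]
  set b' : Fin n → K := fun i => (Algebra.traceForm ℚ K).dualBasis hnd b i with hb'
  have hcard : Fintype.card (Fin n) = Fintype.card (K ≃ₐ[ℚ] K) := by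
    rw [← Module.finrank_eq_card_basis b, ← IsGalois.card_aut_eq_finrank ℚ K,
      Nat.card_eq_fintype_card]
  have hM : (Matrix.of fun (i : Fin n) (g : K ≃ₐ[ℚ] K) => g (b' i)) *
      (Matrix.of fun (g : K ≃ₐ[ℚ] K) (j : Fin n) => g (b j)) = 1 := by
    ext i j
    rw [Matrix.mul_apply, Matrix.one_apply, ← h1 i j]
    rfl
  have hM2 := (Matrix.mul_eq_one_comm_of_equiv (Fintype.equivOfCardEq hcard)).1 hM
  have h4 : ∀ g h : K ≃ₐ[ℚ] K, ∑ i, g (b i) * h (b' i) = if g = h then 1 else 0 := by
    intro g h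
    have h5 := congrFun (congrFun hM2 g) h
    rw [Matrix.mul_apply, Matrix.one_apply] at h5
    exact h5
  refine ⟨b', h1, fun g => ?_, fun g h hgh => ?_⟩
  · rw [h4, if_pos rfl]
  · rw [h4, if_neg hgh]

end Pool.Agent.T2h75.CL
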