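import Pool.Agent.T2h75.CL.Stm

/-! # P3: rational zero sets, Galois translates and the rational hull -/

set_option autoImplicit false

namespace Pool.Agent.T2h75.CL

open scoped BigOperators Matrix

section

variable {K : Type} [Field K] [NumberField K]

/-- the polynomial in the coordinates -/
noncomputable def p3F {n : ℕ} (b' : Fin n → K) (P : MvPolynomial (Fin n) ℚ) :
    MvPolynomial (K ≃ₐ[ℚ] K) K :=
  MvPolynomial.aeval (fun i => ∑ g : K ≃ₐ[ℚ] K, MvPolynomial.C (g (b' i)) * MvPolynomial.X g) P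

theorem p3_eval {n : ℕ} (b' : Fin n → K) (P : MvPolynomial (Fin n) ℚ) (φ : K →+* ℝ)
    (w : (K ≃ₐ[ℚ] K) → ℝ) : MvPolynomial.eval₂ φ w (p3F b' P) =
      MvPolynomial.aeval (fun i => ∑ g : K ≃ₐ[ℚ] K, φ (g (b' i)) * w g) P := by
  have h1 : (MvPolynomial.eval₂Hom φ w).comp
      (MvPolynomial.aeval (R := ℚ) (fun i => ∑ g : K ≃ₐ[ℚ] K,
        (MvPolynomial.C (g (b' i)) * MvPolynomial.X g : MvPolynomial (K ≃ₐ[ℚ] K) K))).toRingHom =
      (MvPolynomial.aeval (R := ℚ) (fun i => ∑ g : K ≃ₐ[ℚ] K, φ (g (b' i)) * w g)).toRingHom := by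
    refine MvPolynomial.ringHom_ext' (Subsingleton.elim _ _) fun i => ?_
    simp only [RingHom.comp_apply, AlgHom.toRingHom_eq_coe, RingHom.coe_coe,
      MvPolynomial.aeval_X, map_sum, map_mul, MvPolynomial.coe_eval₂Hom,
      MvPolynomial.eval₂_C, MvPolynomial.eval₂_X]
  exact RingHom.congr_fun h1 P

theorem p3_exp {n : ℕ} (b' : Fin n → K) (P : MvPolynomial (Fin n) ℚ) (φ : K →+* ℝ)
    (v : (K ≃ₐ[ℚ] K) → ℝ) :
    MvPolynomial.aeval (fun i => ∑ g : K ≃ₐ[ℚ] K, φ (g (b' i)) * Real.exp (v g)) P =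
      ∑ α ∈ (p3F b' P).support, φ ((p3F b' P).coeff α) *
        Real.exp (∑ g, (α g : ℝ) * v g) := by
  rw [← p3_eval b' P φ (fun g => Real.exp (v g)), MvPolynomial.eval₂_eq']
  refine Finset.sum_congr rfl fun α _ => ?_
  congr 1
  rw [Real.exp_sum]
  refine Finset.prod_congr rfl fun g _ => ?_
  rw [← Real.exp_nat_mul]

end

theorem t_P3 (hP1 : S_P1) (hP2 : S_P2) : S_P3 := by
  classical
  intro K _ _ _ ι S hS d hd y hy τ
  obtain ⟨n, b, I, hI⟩ := hS
  obtain ⟨b', h1, h2, h3⟩ := hP2 K n b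
  -- the coordinates
  have hco : ∀ z : (K ≃ₐ[ℚ] K) → ℝ, ∀ g : K ≃ₐ[ℚ] K, z g =
      ∑ i, (∑ h : K ≃ₐ[ℚ] K, ι (h (b' i)) * z h) * ι (g (b i)) := by
    intro z g
    have e1 : ∀ i : Fin n, (∑ h : K ≃ₐ[ℚ] K, ι (h (b' i)) * z h) * ι (g (b i)) =
        ∑ h : K ≃ₐ[ℚ] K, z h * ι (g (b i) * h (b' i)) := by
      intro i
      rw [Finset.sum_mul]
      refine Finset.sum_congr rfl fun h _ => ?_
      rw [map_mul]
      ring
    rw [Finset.sum_congr rfl fun i _ => e1 i, Finset.sum_comm]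
    have e2 : ∀ h : K ≃ₐ[ℚ] K, ∑ i, z h * ι (g (b i) * h (b' i)) =
        if h = g then z g else 0 := by
      intro h
      rw [← Finset.mul_sum, ← map_sum]
      by_cases hh : h = g
      · rw [if_pos hh, hh, h2, map_one, mul_one]
      · rw [if_neg hh, h3 g h (fun e => hh e.symm), map_zero, mul_zero]
    rw [Finset.sum_congr rfl fun h _ => e2 h, Finset.sum_ite_eq' Finset.univ g, if_pos
      (Finset.mem_univ g)]
  have huniq : ∀ (z : (K ≃ₐ[ℚ] K) → ℝ) (x : Fin n → ℝ),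
      (∀ g : K ≃ₐ[ℚ] K, z g = ∑ i, x i * ι (g (b i))) →
      x = fun i => ∑ h : K ≃ₐ[ℚ] K, ι (h (b' i)) * z h := by
    intro z x hx
    funext i
    have e1 : ∀ h : K ≃ₐ[ℚ] K, ι (h (b' i)) * z h =
        ∑ j, x j * ι (h (b' i) * h (b j)) := by
      intro h
      rw [hx h, Finset.mul_sum]
      refine Finset.sum_congr rfl fun j _ => ?_
      rw [map_mul]
      ring
    rw [Finset.sum_congr rfl fun h _ => e1 h, Finset.sum_comm]
    have e2 : ∀ j : Fin n, ∑ h : K ≃ₐ[ℚ] K, x j * ι (h (b' i) * h (b j)) =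
        if i = j then x j else 0 := by
      intro j
      rw [← Finset.mul_sum, ← map_sum, h1]
      by_cases hh : i = j
      · rw [if_pos hh, if_pos hh, map_one, mul_one]
      · rw [if_neg hh, if_neg hh, map_zero, mul_zero]
    rw [Finset.sum_congr rfl fun j _ => e2 j, Finset.sum_ite_eq Finset.univ i, if_pos
      (Finset.mem_univ i)]
  have hE : ∀ v : (K ≃ₐ[ℚ] K) → ℝ, E v ∈ S ↔ ∀ P ∈ I, MvPolynomial.aeval
      (fun i => ∑ g : K ≃ₐ[ℚ] K, ι (g (b' i)) * Real.exp (v g)) P = 0 := by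
    intro v
    rw [hI]
    constructor
    · intro h P hP
      exact h _ (fun g => hco (fun g => Real.exp (v g)) g) P hP
    · intro h x hx P hP
      rw [huniq (fun g => Real.exp (v g)) x hx]
      exact h P hP
  rw [hE]
  intro P hP
  set F := p3F b' P with hF
  -- the sums over the level sets vanish
  have hlev : ∀ r : ℝ, ∑ α ∈ F.support with ∑ g, ((α : (K ≃ₐ[ℚ] K) →₀ ℕ) g : ℝ) * d g = r,
      ι (F.coeff α) = 0 := by
    refine hP1 _ F.support (fun α => ι (F.coeff α)) (fun α => ∑ g, (α g : ℝ) * d g) fun t => ?_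
    have e1 := (hE (t • d)).1 (hd t) P hP
    rw [p3_exp b' P ι (t • d)] at e1
    rw [← e1]
    refine Finset.sum_congr rfl fun α _ => ?_
    congr 2
    rw [Finset.mul_sum]
    refine Finset.sum_congr rfl fun g _ => ?_
    rw [Pi.smul_apply, smul_eq_mul]
    ring
  have hlev2 : ∀ r : ℝ, ∑ α ∈ F.support with ∑ g, ((α : (K ≃ₐ[ℚ] K) →₀ ℕ) g : ℝ) * d g = r,
      (ι.comp (τ⁻¹ : K ≃ₐ[ℚ] K).toRingEquiv.toRingHom) (F.coeff α) = 0 := by
    intro r
    have e1 := hlev r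
    rw [← map_sum] at e1
    have e2 := (map_eq_zero ι).1 e1
    rw [← map_sum, e2, map_zero]
  -- the twisted sum vanishes
  have htw : ∑ α ∈ F.support, (ι.comp (τ⁻¹ : K ≃ₐ[ℚ] K).toRingEquiv.toRingHom) (F.coeff α) *
      Real.exp (∑ g, (α g : ℝ) * y g) = 0 := by
    rw [← Finset.sum_fiberwise_of_maps_to (s := F.support)
      (t := F.support.image fun α => ∑ g, (α g : ℝ) * d g)
      (g := fun α => ∑ g, (α g : ℝ) * d g) (fun α hα => Finset.mem_image_of_mem _ hα)]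
    refine Finset.sum_eq_zero fun r hr => ?_
    obtain ⟨α₀, hα₀, hr0⟩ := Finset.mem_image.1 hr
    have e1 : ∀ α ∈ F.support.filter (fun α => ∑ g, (α g : ℝ) * d g = r),
        (ι.comp (τ⁻¹ : K ≃ₐ[ℚ] K).toRingEquiv.toRingHom) (F.coeff α) *
          Real.exp (∑ g, (α g : ℝ) * y g) =
        (ι.comp (τ⁻¹ : K ≃ₐ[ℚ] K).toRingEquiv.toRingHom) (F.coeff α) *
          Real.exp (∑ g, (α₀ g : ℝ) * y g) := by
      intro α hα
      have e2 := (Finset.mem_filter.1 hα).2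
      have e3 := hy (fun g => (α g : ℤ) - (α₀ g : ℤ)) (by
        push_cast
        simp only [sub_mul, Finset.sum_sub_distrib]
        rw [e2, ← hr0, sub_self])
      push_cast at e3
      simp only [sub_mul, Finset.sum_sub_distrib] at e3
      rw [sub_eq_zero.1 e3]
    rw [Finset.sum_congr rfl e1, ← Finset.sum_mul, hlev2 r, zero_mul]
  rw [← p3_exp b' P _ y] at htw
  rw [← htw]
  congr 1
  have e5 : (fun i => ∑ g : K ≃ₐ[ℚ] K, ι (g (b' i)) * Real.exp (y (τ * g))) =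
      fun i => ∑ g : K ≃ₐ[ℚ] K, (ι.comp (τ⁻¹ : K ≃ₐ[ℚ] K).toRingEquiv.toRingHom) (g (b' i)) *
        Real.exp (y g) := by
    funext i
    refine Fintype.sum_equiv (Equiv.mulLeft τ) _ _ fun g => ?_
    show ι (g (b' i)) * Real.exp (y (τ * g)) = ι ((τ⁻¹ : K ≃ₐ[ℚ] K) ((τ * g) (b' i))) *
      Real.exp (y (τ * g))
    congr 2
    show g (b' i) = (τ⁻¹ * (τ * g)) (b' i)
    rw [inv_mul_cancel_left]
  rw [e5]

end Pool.Agent.T2h75.CL
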