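import Pool.Agent.T2h75.CL.Stm

/-! Project CL, task T1. -/

set_option autoImplicit false

open Filter Topology

namespace Pool.Agent.T2h75.CL

theorem t_T1 : S_T1 := by
  intro V _ _ _ Γ hcl hsm
  choose x hxΓ hx0 hxn using fun k : ℕ => hsm (1 / ((k : ℝ) + 1)) (by positivity)
  have hu : ∀ k, ‖x k‖⁻¹ • x k ∈ Metric.sphere (0 : V) 1 := by
    intro k
    rw [mem_sphere_zero_iff_norm, norm_smul, norm_inv, norm_norm,
      inv_mul_cancel₀ (norm_ne_zero_iff.2 (hx0 k))]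
  have : ProperSpace V := FiniteDimensional.proper ℝ V
  obtain ⟨d, hd, φ, hφ, hlim⟩ := (isCompact_sphere (0 : V) 1).tendsto_subseq hu
  refine ⟨d, ?_, fun t => ?_⟩
  · rintro rfl
    simp at hd
  have h1 : Tendsto (fun k => ‖x (φ k)‖) atTop (𝓝 0) := by
    have h0 : Tendsto (fun k => ‖x k‖) atTop (𝓝 0) :=
      squeeze_zero (fun k => norm_nonneg _) (fun k => (hxn k).le)
        tendsto_one_div_add_atTop_nhds_zero_nat
    exact h0.comp hφ.tendsto_atTop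
  have h2 : Tendsto (fun k => ((⌊t / ‖x (φ k)‖⌋ : ℤ) : ℝ) * ‖x (φ k)‖) atTop (𝓝 t) := by
    have h3 : Tendsto (fun k => t - ‖x (φ k)‖) atTop (𝓝 t) := by
      simpa using (tendsto_const_nhds (x := t)).sub h1
    refine tendsto_of_tendsto_of_tendsto_of_le_of_le h3 tendsto_const_nhds (fun k => ?_)
      (fun k => ?_)
    · have hpos : 0 < ‖x (φ k)‖ := norm_pos_iff.2 (hx0 _)
      have h4 : t / ‖x (φ k)‖ < ((⌊t / ‖x (φ k)‖⌋ : ℤ) : ℝ) + 1 := Int.lt_floor_add_one _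
      rw [div_lt_iff₀ hpos] at h4
      show t - ‖x (φ k)‖ ≤ _
      linarith
    · have hpos : 0 < ‖x (φ k)‖ := norm_pos_iff.2 (hx0 _)
      have h4 : ((⌊t / ‖x (φ k)‖⌋ : ℤ) : ℝ) ≤ t / ‖x (φ k)‖ := Int.floor_le _
      rwa [le_div_iff₀ hpos] at h4
  have h5 := h2.smul hlim
  refine hcl.mem_of_tendsto h5 (Eventually.of_forall fun k => ?_)
  show (((⌊t / ‖x (φ k)‖⌋ : ℤ) : ℝ) * ‖x (φ k)‖) • (‖x (φ k)‖⁻¹ • x (φ k)) ∈ Γ
  rw [smul_smul, mul_assoc, mul_inv_cancel₀ (norm_ne_zero_iff.2 (hx0 _)), mul_one,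
    Int.cast_smul_eq_zsmul]
  exact Γ.zsmul_mem (hxΓ _) _

end Pool.Agent.T2h75.CL
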