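import Pool.Agent.T2h75.CL.Stm

/-! Project CL, task T2. -/

set_option autoImplicit false

open Filter Topology

namespace Pool.Agent.T2h75.CL

theorem t_T2 : S_T2 := by
  intro V _ _ _ n v hZ ⟨c, hc0, hc⟩ ε hε
  by_contra hcon
  have hcon' : ∀ m : Fin n → ℤ, ∑ i, (m i : ℝ) • v i ≠ 0 → ε ≤ ‖∑ i, (m i : ℝ) • v i‖ := by
    intro m hm
    by_contra hlt
    exact hcon ⟨m, hm, not_le.1 hlt⟩
  have hdisc : DiscreteTopology (Submodule.span ℤ (Set.range v)) := by
    refine DiscreteTopology.of_forall_le_norm hε fun x hx => ?_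
    obtain ⟨m, hm⟩ := (Submodule.mem_span_range_iff_exists_fun ℤ).1 x.2
    have hm' : ∑ i, (m i : ℝ) • v i = (x : V) := by
      rw [← hm]
      exact Finset.sum_congr rfl fun i _ => Int.cast_smul_eq_zsmul ℝ _ _
    have h1 := hcon' m (by
      rw [hm']
      exact fun h => hx (Subtype.ext h))
    rw [hm'] at h1
    exact h1
  have h1 := Real.finrank_eq_int_finrank_of_discrete hdisc
  have hli : LinearIndependent ℤ v := by
    rw [Fintype.linearIndependent_iff]
    intro m hm i
    have h2 : m = 0 := hZ m (by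
      rw [← hm]
      exact Finset.sum_congr rfl fun i _ => Int.cast_smul_eq_zsmul ℝ _ _)
    rw [h2]
    rfl
  have h3 : Set.finrank ℤ (Set.range v) = n := by
    rw [Set.finrank, finrank_span_eq_card hli, Fintype.card_fin]
  rw [h3] at h1
  have h4 : LinearIndependent ℝ v := by
    rw [linearIndependent_iff_card_eq_finrank_span, Fintype.card_fin, h1]
  exact hc0 (funext fun i => Fintype.linearIndependent_iff.1 h4 c hc i)

end Pool.Agent.T2h75.CL
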