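import Pool.Agent.T2h75.CL.Stm

/-! Project CL, task T3. -/

set_option autoImplicit false

open Filter Topology

namespace Pool.Agent.T2h75.CL

theorem E_zero' {κ : Type*} : E (0 : κ → ℝ) = 1 := by
  funext i
  apply Units.ext
  simp [E]

theorem E_add' {κ : Type*} (v w : κ → ℝ) : E (v + w) = E v * E w := by
  funext i
  apply Units.ext
  simp [E, Real.exp_add]

theorem E_neg' {κ : Type*} (v : κ → ℝ) : E (-v) = (E v)⁻¹ := by
  rw [eq_inv_iff_mul_eq_one, ← E_add', neg_add_cancel, E_zero']

theorem E_cont' {κ : Type*} : Continuous (E : (κ → ℝ) → κ → ℝˣ) := by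
  refine continuous_pi fun i => Units.continuous_iff.2 ⟨?_, ?_⟩
  · exact Real.continuous_exp.comp (continuous_apply i)
  · have : (Units.val ∘ (fun x : κ → ℝ => (E x i)⁻¹)) = fun x => (Real.exp (x i))⁻¹ := by
      funext x
      simp [E]
    show Continuous (fun x : κ → ℝ => (((E x i)⁻¹ : ℝˣ) : ℝ))
    have h2 : (fun x : κ → ℝ => (((E x i)⁻¹ : ℝˣ) : ℝ)) = fun x => (Real.exp (x i))⁻¹ := this
    rw [h2]
    exact (Real.continuous_exp.comp (continuous_apply i)).inv₀ fun x => Real.exp_ne_zero _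

theorem E_lg' {κ : Type*} (z : κ → ℝˣ) : E ((2 : ℝ) • lg z) = z * z := by
  funext i
  apply Units.ext
  have h0 : ((z i : ℝˣ) : ℝ) ≠ 0 := (z i).ne_zero
  simp only [E, lg, Pi.smul_apply, smul_eq_mul, Pi.mul_apply, Units.val_mk0, Units.val_mul]
  rw [two_mul, Real.exp_add, Real.exp_log (abs_pos.2 h0), abs_mul_abs_self]

theorem t_T3 (hT1 : S_T1) : S_T3 := by
  intro κ _ L hL
  have := Fintype.ofFinite κ
  let Γ : AddSubgroup (κ → ℝ) :=
    { carrier := {v | E v ∈ L.topologicalClosure}
      zero_mem' := by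
        show E 0 ∈ L.topologicalClosure
        rw [E_zero']
        exact one_mem _
      add_mem' := by
        intro a b ha hb
        show E (a + b) ∈ L.topologicalClosure
        rw [E_add']
        exact mul_mem ha hb
      neg_mem' := by
        intro a ha
        show E (-a) ∈ L.topologicalClosure
        rw [E_neg']
        exact inv_mem ha }
  have hcl : IsClosed (Γ : Set (κ → ℝ)) :=
    (L.isClosed_topologicalClosure).preimage E_cont'
  obtain ⟨d, hd0, hd⟩ := hT1 (κ → ℝ) Γ hcl (by
    intro ε hε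
    obtain ⟨z, hz, hz0, hzε⟩ := hL (ε / 2) (by positivity)
    refine ⟨(2 : ℝ) • lg z, ?_, ?_, ?_⟩
    · show E ((2 : ℝ) • lg z) ∈ L.topologicalClosure
      rw [E_lg']
      exact L.le_topologicalClosure (mul_mem hz hz)
    · exact smul_ne_zero two_ne_zero hz0
    · rw [norm_smul, Real.norm_eq_abs, abs_of_pos two_pos]
      have h1 : ‖lg z‖ < ε / 2 := by
        rw [pi_norm_lt_iff (by positivity)]
        intro i
        rw [Real.norm_eq_abs]
        exact hzε i
      linarith)
  refine ⟨d, hd0, fun t => ?_⟩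
  have hψ : Continuous fun s : ℝ => (⟨E (s • d), hd s⟩ : L.topologicalClosure) :=
    (E_cont'.comp (continuous_id.smul continuous_const)).subtype_mk _
  have hpre : IsPreconnected (Set.range fun s : ℝ => (⟨E (s • d), hd s⟩ : L.topologicalClosure)) :=
    isPreconnected_range hψ
  have h1 : (1 : L.topologicalClosure) ∈
      Set.range fun s : ℝ => (⟨E (s • d), hd s⟩ : L.topologicalClosure) := by
    refine ⟨0, Subtype.ext ?_⟩
    show E ((0 : ℝ) • d) = 1
    rw [zero_smul, E_zero']
  have h2 := hpre.subset_connectedComponent h1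
  refine ⟨⟨E (t • d), hd t⟩, ?_, rfl⟩
  exact h2 ⟨t, rfl⟩

end Pool.Agent.T2h75.CL
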