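import Pool.Agent.T2h75.CL.Stm

set_option autoImplicit false

namespace Pool.Agent.T2h75.CL

theorem t_T4 : S_T4 := by
  intro κ _ L U hU
  have hc : Continuous (lg : (κ → ℝˣ) → κ → ℝ) := by
    apply continuous_pi
    intro i
    have h1 : Continuous fun z : κ → ℝˣ => |((z i : ℝˣ) : ℝ)| :=
      (Units.continuous_val.comp (continuous_apply i)).abs
    exact h1.log (fun z => abs_ne_zero.mpr (z i).ne_zero)
  have hcl : IsClosed (lg ⁻¹' (U : Set (κ → ℝ))) :=
    (Submodule.closed_of_finiteDimensional U).preimage hc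
  intro z hz
  have : (z : κ → ℝˣ) ∈ closure (L : Set (κ → ℝˣ)) := hz
  exact closure_minimal (fun w hw => hU w hw) hcl this

end Pool.Agent.T2h75.CL
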